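import Mathlib

noncomputable section

namespace Pool.Agent.Lib.MP_5b74a0_ag.Comb

open Filter

/-! ### Counting classes of a partial equivalence relation -/

section Classes

variable {T T' : Type*}

/-- The set of classes of a relation. -/
def cls (R : T → T → Prop) : Set (Set T) := {C | ∃ t, R t t ∧ C = {t' | R t t'}}

/-- The number of classes of a relation. -/
def ncls (R : T → T → Prop) : ℕ := (cls R).ncard

theorem ncls_eq_of_rel (R : T → T → Prop) (R' : T' → T' → Prop) (Q : T → T' → Prop)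
    (sym : ∀ a b, R a b → R b a) (trans : ∀ a b c, R a b → R b c → R a c)
    (Q1 : ∀ a b, Q a b → R' b b)
    (Q2 : ∀ a a' b, R a a' → Q a' b → Q a b)
    (Q3 : ∀ a b b', Q a b → R' b b' → Q a b')
    (Q4 : ∀ a b b', Q a b → Q a b' → R' b b')
    (Q5 : ∀ a a' b, Q a b → Q a' b → R a a')
    (Q6 : ∀ a, R a a → ∃ b, Q a b)
    (Q7 : ∀ b, R' b b → ∃ a, Q a b) : ncls R = ncls R' := by
  have key : ∀ t, R t t → {b | ∃ t' ∈ {t' | R t t'}, Q t' b} = {b | Q t b} := by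
    intro t ht
    ext b
    constructor
    · rintro ⟨t', h1, h2⟩
      exact Q2 _ _ _ h1 h2
    · intro h
      exact ⟨t, ht, h⟩
  have himg : (fun C : Set T => {b | ∃ t' ∈ C, Q t' b}) '' (cls R) = cls R' := by
    ext D
    constructor
    · rintro ⟨C, ⟨t, ht, rfl⟩, rfl⟩
      obtain ⟨b, hb⟩ := Q6 t ht
      refine ⟨b, Q1 _ _ hb, ?_⟩
      simp only []
      rw [key t ht]
      ext b'
      exact ⟨fun h => Q4 _ _ _ hb h, fun h => Q3 _ _ _ hb h⟩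
    · rintro ⟨b, hb, rfl⟩
      obtain ⟨a, ha⟩ := Q7 b hb
      have haa : R a a := Q5 _ _ _ ha ha
      refine ⟨{t' | R a t'}, ⟨a, haa, rfl⟩, ?_⟩
      simp only []
      rw [key a haa]
      ext b'
      exact ⟨fun h => Q4 _ _ _ ha h, fun h => Q3 _ _ _ ha h⟩
  have hinj : Set.InjOn (fun C : Set T => {b | ∃ t' ∈ C, Q t' b}) (cls R) := by
    rintro _ ⟨t, ht, rfl⟩ _ ⟨u, hu, rfl⟩ h
    simp only [] at h
    rw [key t ht, key u hu] at h
    obtain ⟨b, hb⟩ := Q6 t ht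
    have hb' : b ∈ {b | Q u b} := by rw [← h]; exact hb
    have htu : R t u := Q5 _ _ _ hb hb'
    ext v
    exact ⟨fun hv => trans _ _ _ (sym _ _ htu) hv, fun hv => trans _ _ _ htu hv⟩
  unfold ncls
  rw [← himg, Set.InjOn.ncard_image hinj]

/-- The sum of two relations. -/
def sumRel (R : T → T → Prop) (R' : T' → T' → Prop) : T ⊕ T' → T ⊕ T' → Prop
  | .inl a, .inl b => R a b
  | .inr a, .inr b => R' a b
  | _, _ => False

/-- The product of two relations. -/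
def prodRel (R : T → T → Prop) (R' : T' → T' → Prop) : T × T' → T × T' → Prop :=
  fun a b => R a.1 b.1 ∧ R' a.2 b.2

theorem ncls_sum [Finite T] [Finite T'] (R : T → T → Prop) (R' : T' → T' → Prop) :
    ncls (sumRel R R') = ncls R + ncls R' := by
  have h : cls (sumRel R R') = (Set.image Sum.inl '' cls R) ∪ (Set.image Sum.inr '' cls R') := by
    ext C
    constructor
    · rintro ⟨t | t, ht, rfl⟩
      · left
        refine ⟨{t' | R t t'}, ⟨t, ht, rfl⟩, ?_⟩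
        ext (u | u)
        · simp [sumRel]
        · simp [sumRel]
      · right
        refine ⟨{t' | R' t t'}, ⟨t, ht, rfl⟩, ?_⟩
        ext (u | u)
        · simp [sumRel]
        · simp [sumRel]
    · rintro (⟨D, ⟨t, ht, rfl⟩, rfl⟩ | ⟨D, ⟨t, ht, rfl⟩, rfl⟩)
      · refine ⟨Sum.inl t, ht, ?_⟩
        ext (u | u)
        · simp [sumRel]
        · simp [sumRel]
      · refine ⟨Sum.inr t, ht, ?_⟩
        ext (u | u)
        · simp [sumRel]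
        · simp [sumRel]
  unfold ncls
  rw [h, Set.ncard_union_eq, Set.ncard_image_of_injective, Set.ncard_image_of_injective]
  · exact Set.image_injective.mpr Sum.inr_injective
  · exact Set.image_injective.mpr Sum.inl_injective
  · rw [Set.disjoint_left]
    rintro _ ⟨D, ⟨t, ht, rfl⟩, rfl⟩ ⟨D', ⟨t', ht', rfl⟩, h⟩
    have : (Sum.inl t : T ⊕ T') ∈ Sum.inr '' {t'_1 | R' t' t'_1} := by
      rw [h]; exact ⟨t, ht, rfl⟩
    simp at this

theorem ncls_prod [Finite T] [Finite T'] (R : T → T → Prop) (R' : T' → T' → Prop) :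
    ncls (prodRel R R') = ncls R * ncls R' := by
  have h : cls (prodRel R R') = (fun p : Set T × Set T' => p.1 ×ˢ p.2) '' (cls R ×ˢ cls R') := by
    ext C
    constructor
    · rintro ⟨⟨t, t'⟩, ht, rfl⟩
      refine ⟨⟨{u | R t u}, {u | R' t' u}⟩, ⟨⟨t, ht.1, rfl⟩, ⟨t', ht.2, rfl⟩⟩, ?_⟩
      ext ⟨u, u'⟩
      simp [prodRel]
    · rintro ⟨⟨D, D'⟩, ⟨⟨t, ht, hD⟩, ⟨t', ht', hD'⟩⟩, rfl⟩
      simp only at hD hD'
      subst hD hD'
      refine ⟨⟨t, t'⟩, ⟨ht, ht'⟩, ?_⟩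
      ext ⟨u, u'⟩
      simp [prodRel]
  unfold ncls
  rw [h, Set.InjOn.ncard_image, Set.ncard_prod]
  rintro ⟨D, D'⟩ ⟨⟨t, ht, hD⟩, ⟨t', ht', hD'⟩⟩ ⟨E, E'⟩ ⟨⟨u, hu, hE⟩, ⟨u', hu', hE'⟩⟩ h
  have hne : (D ×ˢ D').Nonempty := by
    simp only at hD hD'
    subst hD hD'
    exact ⟨(t, t'), ht, ht'⟩
  have := (Set.prod_eq_prod_iff_of_nonempty hne).mp h
  exact Prod.ext this.1 this.2

theorem ncls_eq [Finite T] : ncls (fun a b : T => a = b) = Nat.card T := by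
  have h : cls (fun a b : T => a = b) = Set.range (fun a : T => ({a} : Set T)) := by
    ext C
    constructor
    · rintro ⟨t, -, rfl⟩
      exact ⟨t, by ext; simp [eq_comm]⟩
    · rintro ⟨t, rfl⟩
      exact ⟨t, rfl, by ext; simp [eq_comm]⟩
  unfold ncls
  rw [h, ← Set.image_univ, Set.ncard_image_of_injective _ Set.singleton_injective, Set.ncard_univ]

end Classes

/-! ### Transfer along an ultrafilter -/

section Transfer

variable {I : Type} {U : Ultrafilter I}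

theorem ev_forall {T : I → Type} [∀ s, Nonempty (T s)] {p : ∀ s, T s → Prop} :
    (∀ᶠ s in (U : Filter I), ∀ a, p s a) ↔ ∀ a : ∀ s, T s, ∀ᶠ s in (U : Filter I), p s (a s) := by
  constructor
  · intro h a
    filter_upwards [h] with s hs using hs _
  · intro h
    by_contra hcon
    rw [← Ultrafilter.eventually_not] at hcon
    simp only [not_forall] at hcon
    rw [Filter.skolem] at hcon
    obtain ⟨b, hb⟩ := hcon
    rw [Ultrafilter.eventually_not] at hb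
    exact hb (h b)

/-- A partial description of a type by sequences. -/
structure Rep (U : Ultrafilter I) (Ω : Type*) where
  /-- the finite types -/
  T : I → Type
  fin : ∀ s, Finite (T s)
  ne : ∀ s, Nonempty (T s)
  /-- the sequence represents the point -/
  rep : (∀ s, T s) → Ω → Prop
  fn : ∀ y x x', rep y x → rep y x' → x = x'
  ae : ∀ y y' x, (∀ᶠ s in (U : Filter I), y s = y' s) → rep y x → rep y' x

attribute [instance] Rep.fin Rep.ne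

/-- Every point is represented. -/
def Rep.Surj {Ω : Type*} (r : Rep U Ω) : Prop := ∀ x, ∃ y, r.rep y x

/-- `R` describes the relation `represent the same point`. -/
def Compat {Ω : Type*} (r r' : Rep U Ω) (R : ∀ s, r.T s → r'.T s → Prop) : Prop :=
  ∀ y y', (∃ x, r.rep y x ∧ r'.rep y' x) ↔ ∀ᶠ s in (U : Filter I), R s (y s) (y' s)

theorem ncls_eq_of_compat {Ω : Type*} {r r' : Rep U Ω} (hr : r.Surj) (hr' : r'.Surj)
    {R : ∀ s, r.T s → r.T s → Prop} {R' : ∀ s, r'.T s → r'.T s → Prop}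
    {Q : ∀ s, r.T s → r'.T s → Prop} (h : Compat r r R) (h' : Compat r' r' R')
    (hQ : Compat r r' Q) :
    ∀ᶠ s in (U : Filter I), ncls (R s) = ncls (R' s) := by
  have sym : ∀ᶠ s in (U : Filter I), ∀ a b, R s a b → R s b a := by
    simp only [ev_forall, Ultrafilter.eventually_imp]
    intro a b hab
    obtain ⟨x, h1, h2⟩ := (h a b).mpr hab
    exact (h b a).mp ⟨x, h2, h1⟩
  have trans : ∀ᶠ s in (U : Filter I), ∀ a b c, R s a b → R s b c → R s a c := by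
    simp only [ev_forall, Ultrafilter.eventually_imp]
    intro a b c hab hbc
    obtain ⟨x, h1, h2⟩ := (h a b).mpr hab
    obtain ⟨x', h3, h4⟩ := (h b c).mpr hbc
    obtain rfl := r.fn _ _ _ h2 h3
    exact (h a c).mp ⟨x, h1, h4⟩
  have Q1 : ∀ᶠ s in (U : Filter I), ∀ a b, Q s a b → R' s b b := by
    simp only [ev_forall, Ultrafilter.eventually_imp]
    intro a b hab
    obtain ⟨x, h1, h2⟩ := (hQ a b).mpr hab
    exact (h' b b).mp ⟨x, h2, h2⟩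
  have Q2 : ∀ᶠ s in (U : Filter I), ∀ a a' b, R s a a' → Q s a' b → Q s a b := by
    simp only [ev_forall, Ultrafilter.eventually_imp]
    intro a b c hab hbc
    obtain ⟨x, h1, h2⟩ := (h a b).mpr hab
    obtain ⟨x', h3, h4⟩ := (hQ b c).mpr hbc
    obtain rfl := r.fn _ _ _ h2 h3
    exact (hQ a c).mp ⟨x, h1, h4⟩
  have Q3 : ∀ᶠ s in (U : Filter I), ∀ a b b', Q s a b → R' s b b' → Q s a b' := by
    simp only [ev_forall, Ultrafilter.eventually_imp]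
    intro a b c hab hbc
    obtain ⟨x, h1, h2⟩ := (hQ a b).mpr hab
    obtain ⟨x', h3, h4⟩ := (h' b c).mpr hbc
    obtain rfl := r'.fn _ _ _ h2 h3
    exact (hQ a c).mp ⟨x, h1, h4⟩
  have Q4 : ∀ᶠ s in (U : Filter I), ∀ a b b', Q s a b → Q s a b' → R' s b b' := by
    simp only [ev_forall, Ultrafilter.eventually_imp]
    intro a b c hab hbc
    obtain ⟨x, h1, h2⟩ := (hQ a b).mpr hab
    obtain ⟨x', h3, h4⟩ := (hQ a c).mpr hbc
    obtain rfl := r.fn _ _ _ h1 h3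
    exact (h' b c).mp ⟨x, h2, h4⟩
  have Q5 : ∀ᶠ s in (U : Filter I), ∀ a a' b, Q s a b → Q s a' b → R s a a' := by
    simp only [ev_forall, Ultrafilter.eventually_imp]
    intro a b c hab hbc
    obtain ⟨x, h1, h2⟩ := (hQ a c).mpr hab
    obtain ⟨x', h3, h4⟩ := (hQ b c).mpr hbc
    obtain rfl := r'.fn _ _ _ h2 h4
    exact (h a b).mp ⟨x, h1, h3⟩
  have Q6 : ∀ᶠ s in (U : Filter I), ∀ a, R s a a → ∃ b, Q s a b := by
    simp only [ev_forall, Ultrafilter.eventually_imp]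
    intro a haa
    obtain ⟨x, h1, -⟩ := (h a a).mpr haa
    obtain ⟨b, hb⟩ := hr' x
    filter_upwards [(hQ a b).mp ⟨x, h1, hb⟩] with s hs using ⟨_, hs⟩
  have Q7 : ∀ᶠ s in (U : Filter I), ∀ b, R' s b b → ∃ a, Q s a b := by
    simp only [ev_forall, Ultrafilter.eventually_imp]
    intro b hbb
    obtain ⟨x, h1, -⟩ := (h' b b).mpr hbb
    obtain ⟨a, ha⟩ := hr x
    filter_upwards [(hQ a b).mp ⟨x, ha, h1⟩] with s hs using ⟨_, hs⟩
  filter_upwards [sym, trans, Q1, Q2, Q3, Q4, Q5, Q6, Q7] with s h1 h2 h3 h4 h5 h6 h7 h8 h9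
  exact ncls_eq_of_rel _ _ (Q s) h1 h2 h3 h4 h5 h6 h7 h8 h9

/-- Push a description forward along a map. -/
def Rep.map {Ω Ω' : Type*} (r : Rep U Ω) (f : Ω → Ω') : Rep U Ω' where
  T := r.T
  fin := r.fin
  ne := r.ne
  rep y x' := ∃ x, r.rep y x ∧ f x = x'
  fn := by
    rintro y x x' ⟨u, hu, rfl⟩ ⟨v, hv, rfl⟩
    rw [r.fn _ _ _ hu hv]
  ae := by
    rintro y y' x h ⟨u, hu, rfl⟩
    exact ⟨u, r.ae _ _ _ h hu, rfl⟩

/-- Two descriptions of pieces give a description of the union. -/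
def Rep.sum {Ω Ω₁ Ω₂ : Type*} (r₁ : Rep U Ω₁) (r₂ : Rep U Ω₂) (i : Ω₁ → Ω) (j : Ω₂ → Ω) :
    Rep U Ω where
  T s := r₁.T s ⊕ r₂.T s
  fin _ := inferInstance
  ne _ := inferInstance
  rep y x := (∃ y₁ : (∀ s, r₁.T s), ∃ x₁, (∀ᶠ s in (U : Filter I), y s = Sum.inl (y₁ s)) ∧
      r₁.rep y₁ x₁ ∧ i x₁ = x) ∨
    (∃ y₂ : (∀ s, r₂.T s), ∃ x₂, (∀ᶠ s in (U : Filter I), y s = Sum.inr (y₂ s)) ∧
      r₂.rep y₂ x₂ ∧ j x₂ = x)
  fn := by
    rintro y x x' (⟨y₁, x₁, h1, h2, rfl⟩ | ⟨y₁, x₁, h1, h2, rfl⟩)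
      (⟨y₂, x₂, h3, h4, rfl⟩ | ⟨y₂, x₂, h3, h4, rfl⟩)
    · have : ∀ᶠ s in (U : Filter I), y₁ s = y₂ s := by
        filter_upwards [h1, h3] with s hs hs'
        exact Sum.inl_injective (hs.symm.trans hs')
      rw [r₁.fn _ _ _ (r₁.ae _ _ _ this h2) h4]
    · exfalso
      obtain ⟨s, hs⟩ := (h1.and h3).exists
      exact absurd (hs.1.symm.trans hs.2) (by simp)
    · exfalso
      obtain ⟨s, hs⟩ := (h1.and h3).exists
      exact absurd (hs.1.symm.trans hs.2) (by simp)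
    · have : ∀ᶠ s in (U : Filter I), y₁ s = y₂ s := by
        filter_upwards [h1, h3] with s hs hs'
        exact Sum.inr_injective (hs.symm.trans hs')
      rw [r₂.fn _ _ _ (r₂.ae _ _ _ this h2) h4]
  ae := by
    rintro y y' x h (⟨y₁, x₁, h1, h2, rfl⟩ | ⟨y₁, x₁, h1, h2, rfl⟩)
    · left
      refine ⟨y₁, x₁, ?_, h2, rfl⟩
      filter_upwards [h, h1] with s hs hs'
      rw [← hs, hs']
    · right
      refine ⟨y₁, x₁, ?_, h2, rfl⟩
      filter_upwards [h, h1] with s hs hs'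
      rw [← hs, hs']

/-- Description of a product. -/
def Rep.prod {Ω Ω₁ Ω₂ : Type*} (r₁ : Rep U Ω₁) (r₂ : Rep U Ω₂) (p : Ω → Ω₁) (q : Ω → Ω₂)
    (hpq : ∀ x x', p x = p x' → q x = q x' → x = x') :
    Rep U Ω where
  T s := r₁.T s × r₂.T s
  fin _ := inferInstance
  ne _ := inferInstance
  rep y x := r₁.rep (fun s => (y s).1) (p x) ∧ r₂.rep (fun s => (y s).2) (q x)
  fn := by
    rintro y x x' ⟨h1, h2⟩ ⟨h3, h4⟩
    exact hpq _ _ (r₁.fn _ _ _ h1 h3) (r₂.fn _ _ _ h2 h4)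
  ae := by
    rintro y y' x h ⟨h1, h2⟩
    refine ⟨r₁.ae _ _ _ ?_ h1, r₂.ae _ _ _ ?_ h2⟩
    · filter_upwards [h] with s hs
      rw [hs]
    · filter_upwards [h] with s hs
      rw [hs]

theorem ev_sum {T T' : I → Type} [∀ s, Nonempty (T s)] [∀ s, Nonempty (T' s)]
    (y : ∀ s, T s ⊕ T' s) :
    (∃ y₁ : (∀ s, T s), ∀ᶠ s in (U : Filter I), y s = Sum.inl (y₁ s)) ∨
    (∃ y₁ : (∀ s, T' s), ∀ᶠ s in (U : Filter I), y s = Sum.inr (y₁ s)) := by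
  have h : ∀ᶠ s in (U : Filter I), (∃ a, y s = Sum.inl a) ∨ (∃ a, y s = Sum.inr a) := by
    refine Eventually.of_forall fun s => ?_
    rcases y s with a | a
    · exact Or.inl ⟨a, rfl⟩
    · exact Or.inr ⟨a, rfl⟩
  rw [Ultrafilter.eventually_or, Filter.skolem, Filter.skolem] at h
  exact h

theorem Rep.sum_surj {Ω Ω₁ Ω₂ : Type*} {r₁ : Rep U Ω₁} {r₂ : Rep U Ω₂} {i : Ω₁ → Ω}
    {j : Ω₂ → Ω} (h₁ : r₁.Surj) (h₂ : r₂.Surj) (hij : ∀ x, (∃ z, i z = x) ∨ (∃ z, j z = x)) :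
    (r₁.sum r₂ i j).Surj := by
  intro x
  rcases hij x with ⟨z, rfl⟩ | ⟨z, rfl⟩
  · obtain ⟨y, hy⟩ := h₁ z
    exact ⟨fun s => Sum.inl (y s), Or.inl ⟨y, z, Eventually.of_forall fun _ => rfl, hy, rfl⟩⟩
  · obtain ⟨y, hy⟩ := h₂ z
    exact ⟨fun s => Sum.inr (y s), Or.inr ⟨y, z, Eventually.of_forall fun _ => rfl, hy, rfl⟩⟩

theorem Rep.prod_surj {Ω Ω₁ Ω₂ : Type*} {r₁ : Rep U Ω₁} {r₂ : Rep U Ω₂} {p : Ω → Ω₁}
    {q : Ω → Ω₂} (hpq : ∀ x x', p x = p x' → q x = q x' → x = x') (h₁ : r₁.Surj) (h₂ : r₂.Surj) :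
    (r₁.prod r₂ p q hpq).Surj := by
  intro x
  obtain ⟨y, hy⟩ := h₁ (p x)
  obtain ⟨y', hy'⟩ := h₂ (q x)
  exact ⟨fun s => (y s, y' s), hy, hy'⟩

/-- the relation on a disjoint union with another description. -/
def relSum {T T₁ T₂ : Type*} (Q₁ : T → T₁ → Prop) (Q₂ : T → T₂ → Prop) : T → T₁ ⊕ T₂ → Prop
  | t, .inl a => Q₁ t a
  | t, .inr a => Q₂ t a

theorem compat_sum_self {Ω Ω₁ Ω₂ : Type*} {r₁ : Rep U Ω₁} {r₂ : Rep U Ω₂} {i : Ω₁ → Ω}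
    {j : Ω₂ → Ω} (hi : Function.Injective i) (hj : Function.Injective j)
    (hij : ∀ a b, i a ≠ j b) {R₁ : ∀ s, r₁.T s → r₁.T s → Prop}
    {R₂ : ∀ s, r₂.T s → r₂.T s → Prop} (h₁ : Compat r₁ r₁ R₁) (h₂ : Compat r₂ r₂ R₂) :
    Compat (r₁.sum r₂ i j) (r₁.sum r₂ i j) (fun s => sumRel (R₁ s) (R₂ s)) := by
  intro y y'
  constructor
  · rintro ⟨x, ⟨y₁, x₁, h1, h2, rfl⟩ | ⟨y₁, x₁, h1, h2, rfl⟩,
      ⟨y₂, x₂, h3, h4, h5⟩ | ⟨y₂, x₂, h3, h4, h5⟩⟩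
    · obtain rfl := hi h5
      filter_upwards [h1, h3, (h₁ y₁ y₂).mp ⟨_, h2, h4⟩] with s a b c
      rw [a, b]
      exact c
    · exact absurd h5.symm (hij _ _)
    · exact absurd h5 (hij _ _)
    · obtain rfl := hj h5
      filter_upwards [h1, h3, (h₂ y₁ y₂).mp ⟨_, h2, h4⟩] with s a b c
      rw [a, b]
      exact c
  · intro h
    rcases ev_sum (U := U) y with ⟨y₁, hy₁⟩ | ⟨y₁, hy₁⟩ <;>
      rcases ev_sum (U := U) y' with ⟨y₂, hy₂⟩ | ⟨y₂, hy₂⟩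
    · have : ∀ᶠ s in (U : Filter I), R₁ s (y₁ s) (y₂ s) := by
        filter_upwards [h, hy₁, hy₂] with s a b c
        rw [b, c] at a
        exact a
      obtain ⟨x, h1, h2⟩ := (h₁ y₁ y₂).mpr this
      exact ⟨i x, Or.inl ⟨y₁, x, hy₁, h1, rfl⟩, Or.inl ⟨y₂, x, hy₂, h2, rfl⟩⟩
    · exfalso
      obtain ⟨s, a, b, c⟩ := (h.and (hy₁.and hy₂)).exists
      rw [b, c] at a
      exact a
    · exfalso
      obtain ⟨s, a, b, c⟩ := (h.and (hy₁.and hy₂)).exists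
      rw [b, c] at a
      exact a
    · have : ∀ᶠ s in (U : Filter I), R₂ s (y₁ s) (y₂ s) := by
        filter_upwards [h, hy₁, hy₂] with s a b c
        rw [b, c] at a
        exact a
      obtain ⟨x, h1, h2⟩ := (h₂ y₁ y₂).mpr this
      exact ⟨j x, Or.inr ⟨y₁, x, hy₁, h1, rfl⟩, Or.inr ⟨y₂, x, hy₂, h2, rfl⟩⟩

theorem compat_sum {Ω Ω₁ Ω₂ : Type*} {r : Rep U Ω} {r₁ : Rep U Ω₁} {r₂ : Rep U Ω₂} {i : Ω₁ → Ω}
    {j : Ω₂ → Ω} {Q₁ : ∀ s, r.T s → r₁.T s → Prop}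
    {Q₂ : ∀ s, r.T s → r₂.T s → Prop} (h₁ : Compat r (r₁.map i) Q₁) (h₂ : Compat r (r₂.map j) Q₂) :
    Compat r (r₁.sum r₂ i j) (fun s => relSum (Q₁ s) (Q₂ s)) := by
  intro y y'
  constructor
  · rintro ⟨x, hx, ⟨y₁, x₁, h1, h2, rfl⟩ | ⟨y₁, x₁, h1, h2, rfl⟩⟩
    · filter_upwards [h1, (h₁ y y₁).mp ⟨_, hx, ⟨_, h2, rfl⟩⟩] with s a b
      rw [a]
      exact b
    · filter_upwards [h1, (h₂ y y₁).mp ⟨_, hx, ⟨_, h2, rfl⟩⟩] with s a b
      rw [a]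
      exact b
  · intro h
    rcases ev_sum (U := U) y' with ⟨y₁, hy₁⟩ | ⟨y₁, hy₁⟩
    · have : ∀ᶠ s in (U : Filter I), Q₁ s (y s) (y₁ s) := by
        filter_upwards [h, hy₁] with s a b
        rw [b] at a
        exact a
      obtain ⟨x, h1, x₁, h2, h3⟩ := (h₁ y y₁).mpr this
      exact ⟨x, h1, Or.inl ⟨y₁, x₁, hy₁, h2, h3⟩⟩
    · have : ∀ᶠ s in (U : Filter I), Q₂ s (y s) (y₁ s) := by
        filter_upwards [h, hy₁] with s a b
        rw [b] at a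
        exact a
      obtain ⟨x, h1, x₁, h2, h3⟩ := (h₂ y y₁).mpr this
      exact ⟨x, h1, Or.inr ⟨y₁, x₁, hy₁, h2, h3⟩⟩

theorem compat_prod_self {Ω Ω₁ Ω₂ : Type*} {r₁ : Rep U Ω₁} {r₂ : Rep U Ω₂} {p : Ω → Ω₁}
    {q : Ω → Ω₂} (hpq : ∀ x x', p x = p x' → q x = q x' → x = x')
    (hs : ∀ a b, ∃ x, p x = a ∧ q x = b) {R₁ : ∀ s, r₁.T s → r₁.T s → Prop}
    {R₂ : ∀ s, r₂.T s → r₂.T s → Prop} (h₁ : Compat r₁ r₁ R₁) (h₂ : Compat r₂ r₂ R₂) :
    Compat (r₁.prod r₂ p q hpq) (r₁.prod r₂ p q hpq) (fun s => prodRel (R₁ s) (R₂ s)) := by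
  intro y y'
  constructor
  · rintro ⟨x, ⟨h1, h2⟩, ⟨h3, h4⟩⟩
    filter_upwards [(h₁ _ _).mp ⟨_, h1, h3⟩, (h₂ _ _).mp ⟨_, h2, h4⟩] with s a b using ⟨a, b⟩
  · intro h
    obtain ⟨a, ha, ha'⟩ := (h₁ (fun s => (y s).1) (fun s => (y' s).1)).mpr (h.mono fun s hs => hs.1)
    obtain ⟨b, hb, hb'⟩ := (h₂ (fun s => (y s).2) (fun s => (y' s).2)).mpr (h.mono fun s hs => hs.2)
    obtain ⟨x, rfl, rfl⟩ := hs a b
    exact ⟨x, ⟨ha, hb⟩, ⟨ha', hb'⟩⟩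

theorem compat_prod {Ω Ω₁ Ω₂ : Type*} {r : Rep U Ω} {r₁ : Rep U Ω₁} {r₂ : Rep U Ω₂} {p : Ω → Ω₁}
    {q : Ω → Ω₂} (hpq : ∀ x x', p x = p x' → q x = q x' → x = x')
    {Q₁ : ∀ s, r.T s → r₁.T s → Prop}
    {Q₂ : ∀ s, r.T s → r₂.T s → Prop} (h₁ : Compat (r.map p) r₁ Q₁) (h₂ : Compat (r.map q) r₂ Q₂) :
    Compat r (r₁.prod r₂ p q hpq) (fun s t u => Q₁ s t u.1 ∧ Q₂ s t u.2) := by
  intro y y'
  constructor
  · rintro ⟨x, hx, ⟨h1, h2⟩⟩
    filter_upwards [(h₁ y (fun s => (y' s).1)).mp ⟨_, ⟨_, hx, rfl⟩, h1⟩,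
      (h₂ y (fun s => (y' s).2)).mp ⟨_, ⟨_, hx, rfl⟩, h2⟩] with s a b using ⟨a, b⟩
  · intro h
    obtain ⟨a, ⟨x, hx, rfl⟩, ha'⟩ := (h₁ y (fun s => (y' s).1)).mpr (h.mono fun s hs => hs.1)
    obtain ⟨b, ⟨x', hx', rfl⟩, hb'⟩ := (h₂ y (fun s => (y' s).2)).mpr (h.mono fun s hs => hs.2)
    obtain rfl := r.fn _ _ _ hx hx'
    exact ⟨x, hx, ha', hb'⟩

end Transfer

end Pool.Agent.Lib.MP_5b74a0_ag.Comb
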