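import Mathlib

noncomputable section

namespace Pool.Agent.Lib.MP_5b74a0_ag

open CategoryTheory CategoryTheory.Limits AlgebraicGeometry Opposite

/-! ### The Grothendieck ring of complex varieties with good `μ̂`-action -/

/-- `μ̂`, the limit of the groups `μ_n` of `n`-th roots of unity along the maps
`μ_{dn} → μ_n`, `ζ ↦ ζ ^ d`. -/
def MuHat : Subgroup (ℕ+ → ℂˣ) where
  carrier := {z | (∀ n : ℕ+, z n ^ (n : ℕ) = 1) ∧ ∀ d n : ℕ+, z (d * n) ^ (d : ℕ) = z n}
  mul_mem' := by
    rintro a b ⟨h1, h2⟩ ⟨h3, h4⟩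
    exact ⟨fun n => by simp [mul_pow, h1, h3], fun d n => by simp [mul_pow, h2, h4]⟩
  one_mem' := ⟨fun n => by simp, fun d n => by simp⟩
  inv_mem' := by
    rintro a ⟨h1, h2⟩
    exact ⟨fun n => by simp [h1], fun d n => by simp [h2]⟩

/-- Schemes over `ℂ`. -/
abbrev CSch : Type 1 := Over (Spec (CommRingCat.of ℂ))

/-- The map on points. -/
def onPts {X Y : CSch} (f : X ⟶ Y) : X.left → Y.left := TopCat.Hom.hom f.left.base

/-- Complex varieties: reduced separated schemes of finite type over `ℂ`. -/
structure IsVar (X : CSch) : Prop where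
  reduced : AlgebraicGeometry.IsReduced X.left
  finType : LocallyOfFiniteType X.hom
  quasiCompact : QuasiCompact X.hom
  separated : IsSeparated X.hom

/-- A good `μ̂`-action: an action of `μ̂` that factors through some `μ_n` and such that every
orbit lies in an affine open subset. -/
structure IsGoodAction (X : CSch) (act : MuHat → (X ⟶ X)) : Prop where
  one : act 1 = 𝟙 X
  mul : ∀ z w, act (z * w) = act z ≫ act w
  level : ∃ n : ℕ+, ∀ z : MuHat, z.1 n = 1 → act z = 𝟙 X
  affine : ∀ x : X.left, ∃ V : X.left.Opens, IsAffineOpen V ∧ ∀ z : MuHat, onPts (act z) x ∈ V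

/-- A complex variety with a good `μ̂`-action. -/
structure MuVar where
  X : CSch
  isVar : IsVar X
  act : MuHat → (X ⟶ X)
  isGood : IsGoodAction X act

/-- Equivariant morphisms. -/
def Equivariant (A B : MuVar) (f : A.X ⟶ B.X) : Prop :=
  ∀ z : MuHat, A.act z ≫ f = f ≫ B.act z

/-- Open immersions. -/
def IsOpenImm {X Y : CSch} (f : X ⟶ Y) : Prop :=
  LocallyRingedSpace.IsOpenImmersion f.left.toLRSHom

/-- The ring of regular functions. -/
def Fn (X : CSch) : CommRingCat := Γ(X.left, ⊤)

/-- Pull-back of regular functions. -/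
def pull {X Y : CSch} (f : X ⟶ Y) : Fn Y →+* Fn X := f.left.appTop.hom

/-- The morphism `X → Y × 𝔸^r` over `Y` with coordinates `v`. -/
def toAff {X Y : CSch} (p : X ⟶ Y) (r : ℕ) (v : Fin r → Fn X) :
    X.left ⟶ 𝔸(Fin r; Y.left) :=
  AffineSpace.homOfVector p.left v

/-- `p : E → A` is the projection `A × 𝔸^r → A` (the functions `v` being the coordinates) and
the action on `E` is a lifting of the action on `A` by maps that are affine on the fibres. -/
def IsAffineLift (E A : MuVar) (p : E.X ⟶ A.X) (r : ℕ) : Prop :=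
  Equivariant E A p ∧ ∃ v : Fin r → Fn E.X, IsIso (toAff p r v) ∧
    ∀ (z : MuHat) (j : Fin r), ∃ (a : Fin r → Fn A.X) (b : Fn A.X),
      pull (E.act z) (v j) = ∑ k, pull p (a k) * v k + pull p b

/-- The relations of the Grothendieck ring. -/
inductive KRel : FreeCommRing MuVar → FreeCommRing MuVar → Prop
  | iso (A B : MuVar) (e : A.X ≅ B.X) (he : Equivariant A B e.hom) :
      KRel (FreeCommRing.of A) (FreeCommRing.of B)
  | cut (A Z V : MuVar) (i : Z.X ⟶ A.X) (j : V.X ⟶ A.X) (hi : Equivariant Z A i)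
      (hj : Equivariant V A j) (hci : IsClosedImmersion i.left) (hoj : IsOpenImm j)
      (h : Set.range (onPts i) = (Set.range (onPts j))ᶜ) :
      KRel (FreeCommRing.of A) (FreeCommRing.of Z + FreeCommRing.of V)
  | one (A : MuVar) (h : IsTerminal A.X) : KRel (FreeCommRing.of A) 1
  | mul (P A B : MuVar) (p : P.X ⟶ A.X) (q : P.X ⟶ B.X) (hp : Equivariant P A p)
      (hq : Equivariant P B q) (h : IsLimit (BinaryFan.mk p q)) :
      KRel (FreeCommRing.of P) (FreeCommRing.of A * FreeCommRing.of B)
  | aff (E E' A : MuVar) (r : ℕ) (p : E.X ⟶ A.X) (p' : E'.X ⟶ A.X)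
      (h : IsAffineLift E A p r) (h' : IsAffineLift E' A p' r) :
      KRel (FreeCommRing.of E) (FreeCommRing.of E')

/-- The ideal of relations. -/
def relIdeal : Ideal (FreeCommRing MuVar) := Ideal.span {x | ∃ a b, KRel a b ∧ x = a - b}

/-- `K₀(Var^μ̂)`. -/
def K0 : Type 1 := FreeCommRing MuVar ⧸ relIdeal

instance : CommRing K0 := Ideal.Quotient.commRing relIdeal

/-- The projection from the free ring. -/
def toK0 : FreeCommRing MuVar →+* K0 := Ideal.Quotient.mk relIdeal

/-- The class of a variety with action. -/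
def cl (A : MuVar) : K0 := toK0 (FreeCommRing.of A)

theorem good_of_isAffine {X : CSch} [IsAffine X.left] (f : MuHat → (X ⟶ X)) :
    ∀ x : X.left, ∃ V : X.left.Opens, IsAffineOpen V ∧ ∀ z : MuHat, onPts (f z) x ∈ V :=
  fun _ => ⟨⊤, isAffineOpen_top X.left, fun _ => trivial⟩

/-- The affine line. -/
def A1 : CSch := Over.mk (Spec.map (CommRingCat.ofHom (Polynomial.C : ℂ →+* Polynomial ℂ)))

theorem isVar_A1 : IsVar A1 where
  reduced := inferInstanceAs (AlgebraicGeometry.IsReduced (Spec (CommRingCat.of (Polynomial ℂ))))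
  finType := by
    change LocallyOfFiniteType (Spec.map (CommRingCat.ofHom (Polynomial.C : ℂ →+* Polynomial ℂ)))
    rw [HasRingHomProperty.Spec_iff (P := @LocallyOfFiniteType)]
    have : (algebraMap ℂ (Polynomial ℂ)).FiniteType := by
      rw [RingHom.finiteType_algebraMap]
      infer_instance
    exact this
  quasiCompact := by
    change QuasiCompact (Spec.map _)
    infer_instance
  separated := by
    change IsSeparated (Spec.map _)
    infer_instance

theorem isGood_A1 : IsGoodAction A1 fun _ => 𝟙 A1 where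
  one := rfl
  mul _ _ := by simp
  level := ⟨1, fun _ _ => rfl⟩
  affine := by
    have : IsAffine A1.left := inferInstanceAs (IsAffine (Spec _))
    exact good_of_isAffine _

/-- The affine line with the trivial action. -/
def affineLine : MuVar := ⟨A1, isVar_A1, fun _ => 𝟙 A1, isGood_A1⟩

/-- The automorphism `T ↦ c T` of the ring of Laurent polynomials. -/
def scale (c : ℂˣ) : LaurentPolynomial ℂ →+* LaurentPolynomial ℂ :=
  LaurentPolynomial.eval₂ LaurentPolynomial.C
    (Units.map (LaurentPolynomial.C : ℂ →+* LaurentPolynomial ℂ).toMonoidHom c *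
      unitOfInvertible (LaurentPolynomial.T 1))

theorem scale_C (c : ℂˣ) (a : ℂ) : scale c (LaurentPolynomial.C a) = LaurentPolynomial.C a :=
  LaurentPolynomial.eval₂_C ..

theorem scale_T (c : ℂˣ) :
    scale c (LaurentPolynomial.T 1) = LaurentPolynomial.C (c : ℂ) * LaurentPolynomial.T 1 := by
  rw [scale, LaurentPolynomial.eval₂_T]
  simp

theorem laurent_hom_ext {R : Type*} [CommRing R] {f g : LaurentPolynomial ℂ →+* R}
    (h1 : ∀ a, f (LaurentPolynomial.C a) = g (LaurentPolynomial.C a))
    (h2 : f (LaurentPolynomial.T 1) = g (LaurentPolynomial.T 1)) : f = g := by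
  have h3 : ∀ n : ℕ, f (LaurentPolynomial.T n) = g (LaurentPolynomial.T n) := by
    intro n
    have : (LaurentPolynomial.T (n : ℤ) : LaurentPolynomial ℂ) = LaurentPolynomial.T 1 ^ n := by
      rw [LaurentPolynomial.T_pow]; simp
    rw [this, map_pow, map_pow, h2]
  have h4 : f (LaurentPolynomial.T (-1)) = g (LaurentPolynomial.T (-1)) := by
    have e1 : f (LaurentPolynomial.T (-1)) * f (LaurentPolynomial.T 1) = 1 := by
      rw [← map_mul, ← LaurentPolynomial.T_add]; simp
    have e2 : g (LaurentPolynomial.T (-1)) * g (LaurentPolynomial.T 1) = 1 := by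
      rw [← map_mul, ← LaurentPolynomial.T_add]; simp
    rw [← h2] at e2
    have hu : IsUnit (f (LaurentPolynomial.T 1)) := IsUnit.of_mul_eq_one _ (by rw [mul_comm]; exact e1)
    exact hu.mul_right_cancel (e1.trans e2.symm)
  have h5 : ∀ n : ℕ, f (LaurentPolynomial.T (-n)) = g (LaurentPolynomial.T (-n)) := by
    intro n
    have : (LaurentPolynomial.T (-(n : ℤ)) : LaurentPolynomial ℂ) = LaurentPolynomial.T (-1) ^ n := by
      rw [LaurentPolynomial.T_pow]; simp
    rw [this, map_pow, map_pow, h4]
  refine RingHom.ext fun p => ?_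
  induction p using LaurentPolynomial.induction_on' with
  | add p q hp hq => rw [map_add, map_add, hp, hq]
  | C_mul_T n a =>
    rw [map_mul, map_mul, h1]
    congr 1
    rcases Int.eq_nat_or_neg n with ⟨k, rfl | rfl⟩
    · exact h3 k
    · exact h5 k

theorem scale_one : scale 1 = RingHom.id _ := by
  apply laurent_hom_ext
  · intro a; rw [scale_C]; rfl
  · rw [scale_T]; simp

theorem scale_mul (c d : ℂˣ) : scale (c * d) = (scale c).comp (scale d) := by
  apply laurent_hom_ext
  · intro a; simp [scale_C]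
  · simp only [RingHom.comp_apply, scale_T, map_mul, scale_C]
    simp only [Units.val_mul, map_mul]
    ring

/-- `𝔾_m` over `ℂ`. -/
def Gm : CSch :=
  Over.mk (Spec.map (CommRingCat.ofHom (LaurentPolynomial.C : ℂ →+* LaurentPolynomial ℂ)))

theorem scale_comp (c : ℂˣ) : Spec.map (CommRingCat.ofHom (scale c)) ≫ Gm.hom = Gm.hom := by
  change Spec.map _ ≫ Spec.map _ = Spec.map _
  rw [← Spec.map_comp, ← CommRingCat.ofHom_comp]
  congr 2
  ext a
  simp [scale_C]

/-- Multiplication by `c` on `𝔾_m`. -/
def mulGm (c : ℂˣ) : Gm ⟶ Gm := Over.homMk (Spec.map (CommRingCat.ofHom (scale c))) (scale_comp c)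

theorem isVar_Gm : IsVar Gm where
  reduced := by
    have : _root_.IsReduced (LaurentPolynomial ℂ) := inferInstance
    exact inferInstanceAs (AlgebraicGeometry.IsReduced (Spec (CommRingCat.of (LaurentPolynomial ℂ))))
  finType := by
    change LocallyOfFiniteType
      (Spec.map (CommRingCat.ofHom (LaurentPolynomial.C : ℂ →+* LaurentPolynomial ℂ)))
    rw [HasRingHomProperty.Spec_iff (P := @LocallyOfFiniteType)]
    have : (algebraMap ℂ (LaurentPolynomial ℂ)).FiniteType := by
      rw [RingHom.finiteType_algebraMap]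
      have : AddMonoid.FG ℤ := inferInstance
      exact AddMonoidAlgebra.finiteType_of_fg ℂ ℤ
    exact this
  quasiCompact := by
    change QuasiCompact (Spec.map _)
    infer_instance
  separated := by
    change IsSeparated (Spec.map _)
    infer_instance

theorem mulGm_one : mulGm 1 = 𝟙 Gm := by
  apply Over.OverMorphism.ext
  change Spec.map (CommRingCat.ofHom (scale 1)) = 𝟙 _
  rw [scale_one]
  exact Spec.map_id _

theorem mulGm_mul (c d : ℂˣ) : mulGm (c * d) = mulGm c ≫ mulGm d := by
  apply Over.OverMorphism.ext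
  change Spec.map (CommRingCat.ofHom (scale (c * d))) =
    Spec.map (CommRingCat.ofHom (scale c)) ≫ Spec.map (CommRingCat.ofHom (scale d))
  rw [← Spec.map_comp, ← CommRingCat.ofHom_comp, ← scale_mul]

theorem isGood_Gm (k : ℕ+) : IsGoodAction Gm fun z => mulGm (z.1 k) where
  one := mulGm_one
  mul z w := mulGm_mul (z.1 k) (w.1 k)
  level := ⟨k, fun z hz => by rw [hz]; exact mulGm_one⟩
  affine := by
    have : IsAffine Gm.left := inferInstanceAs (IsAffine (Spec _))
    exact good_of_isAffine _

/-- `𝔾_m` with `μ̂` acting through `μ_k` by multiplication. -/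
def torus (k : ℕ+) : MuVar := ⟨Gm, isVar_Gm, fun z => mulGm (z.1 k), isGood_Gm k⟩

/-- `M = K₀(Var^μ̂)[𝕃⁻¹]`. -/
def Mot : Type 1 := Localization.Away (cl affineLine)

instance : CommRing Mot := OreLocalization.instCommRing

/-- The map `K₀(Var^μ̂) → M`. -/
def toMot : K0 →+* Mot := algebraMap K0 (Localization.Away (cl affineLine))

/-- The class of a variety with action in `M`. -/
def mot (A : MuVar) : Mot := toMot (cl A)

/-- `𝕃`. -/
def Lef : Mot := mot affineLine

/-- `𝕃⁻¹`. -/
def LefInv : Mot := Ring.inverse Lef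

open PowerSeries in
/-- `1 / (1 - 𝕃^{-a} T^b)`. -/
def geom (a b : ℕ) : PowerSeries Mot := Ring.inverse (1 - C (LefInv ^ a) * X ^ b)

open PowerSeries in
/-- The zeta function. -/
def zetaSNC {J : Type} [Fintype J] [DecidableEq J] (m ν : J → ℕ) (E : Finset J → Mot) :
    PowerSeries Mot :=
  ∑ I ∈ Finset.univ.filter (fun I : Finset J => I.Nonempty),
    C (E I * (Lef - 1) ^ (I.card - 1)) * ∏ i ∈ I, C (LefInv ^ ν i) * X ^ m i * geom (ν i) (m i)

/-- `S` is a set of poles of `Z`. -/
def IsSetOfPoles (S : Finset (ℕ × ℕ)) (Z : PowerSeries Mot) : Prop :=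
  (∀ p ∈ S, 0 < p.1 ∧ 0 < p.2) ∧
    Z ∈ Subring.closure (Set.range (PowerSeries.C (R := Mot)) ∪ {PowerSeries.X} ∪
      {f | ∃ p ∈ S, f = geom p.1 p.2})

/-! ### Infinite cyclic covers and Alexander modules -/

section Topology

open Complex

/-- `p : E → X` is the infinite cyclic cover attached to the epimorphism `Δ` and the
homeomorphism `t` generates its group of deck transformations. -/
structure IsInfiniteCyclicCover {X E : Type} [TopologicalSpace X] [TopologicalSpace E] (x : X)
    (Δ : FundamentalGroup X x →* Multiplicative ℤ) (p : C(E, X)) (t : E ≃ₜ E) : Prop where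
  surj : Function.Surjective Δ
  covering : IsCoveringMap p
  connected : PathConnectedSpace E
  range_eq : ∀ (e : E) (he : p e = x), (FundamentalGroup.mapOfEq p he).range = Δ.ker
  deck : ∀ e, p (t e) = p e
  generates : ∀ s : E ≃ₜ E, (∀ e, p (s e) = p e) → ∃ n : ℤ, s = t ^ n

/-- Singular cohomology with complex coefficients. -/
def Hcoh (i : ℕ) (X : Type) [TopologicalSpace X] : ModuleCat.{0} ℂ :=
  (((AlgebraicTopology.singularHomologyFunctor (ModuleCat.{0} ℂ)ᵒᵖ i).obj
    (op (ModuleCat.of ℂ ℂ))).obj (TopCat.of X)).unop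

/-- The map induced on cohomology. -/
def HcohMap (i : ℕ) {X Y : Type} [TopologicalSpace X] [TopologicalSpace Y] (f : C(X, Y)) :
    Hcoh i Y →ₗ[ℂ] Hcoh i X :=
  (((AlgebraicTopology.singularHomologyFunctor (ModuleCat.{0} ℂ)ᵒᵖ i).obj
    (op (ModuleCat.of ℂ ℂ))).map (TopCat.ofHom f)).unop.hom

/-- The pull-back along `f : X → ℂ^*` of the universal cover `s ↦ exp (2πi s)` of `ℂ^*`. -/
def CyclicCover {X : Type} [TopologicalSpace X] (f : C(X, ℂ)) : Type :=
  {q : ℂ × X // exp (2 * Real.pi * I * q.1) = f q.2}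

instance {X : Type} [TopologicalSpace X] (f : C(X, ℂ)) : TopologicalSpace (CyclicCover f) :=
  instTopologicalSpaceSubtype

variable {X : Type} [TopologicalSpace X] (f : C(X, ℂ))

/-- The covering map. -/
def proj : C(CyclicCover f, X) := ⟨fun q => q.1.2, continuous_snd.comp continuous_subtype_val⟩

theorem deck_iff (q : ℂ × X) : exp (2 * Real.pi * I * q.1) = f q.2 ↔
    exp (2 * Real.pi * I * (q.1 + 1)) = f q.2 := by
  rw [mul_add, mul_one, exp_add, exp_two_pi_mul_I, mul_one]

/-- The deck transformation `(s, p) ↦ (s + 1, p)`. -/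
def deck : CyclicCover f ≃ₜ CyclicCover f :=
  ((Homeomorph.addRight (1 : ℂ)).prodCongr (Homeomorph.refl X)).subtype (deck_iff f)

/-- The action of the deck transformation on cohomology. -/
def deckCoh (i : ℕ) : Module.End ℂ (Hcoh i (CyclicCover f)) := HcohMap i ⟨deck f, (deck f).continuous⟩

end Topology

end Pool.Agent.Lib.MP_5b74a0_ag
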