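import Mathlib

noncomputable section

namespace Pool.Agent.Lib.MP_5b74a0_ag.Ultra

open Filter

instance isJacobsonRing_int : IsJacobsonRing ℤ := by
  rw [isJacobsonRing_iff_prime_eq]
  intro P hP
  by_cases h : P = ⊥
  · subst h
    refine le_antisymm ?_ Ideal.le_jacobson
    intro x hx
    rw [Ideal.mem_bot]
    by_contra hx0
    obtain ⟨p, hp, hp'⟩ := Nat.exists_infinite_primes (x.natAbs + 1)
    have hmax : (Ideal.span {(p : ℤ)}).IsMaximal :=
      PrincipalIdealRing.isMaximal_of_irreducible (Nat.prime_iff_prime_int.mp hp').irreducible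
    have := Ideal.mem_sInf.mp hx (I := Ideal.span {(p : ℤ)}) ⟨bot_le, hmax⟩
    rw [Ideal.mem_span_singleton] at this
    have h2 := Int.natAbs_dvd_natAbs.mpr this
    simp only [Int.natAbs_natCast] at h2
    have := Nat.le_of_dvd (Int.natAbs_pos.mpr hx0) h2
    omega
  · have := hP.isMaximal h
    exact Ideal.jacobson_eq_self_of_isMaximal

theorem finite_of_finite_int (S : Type*) [Field S] [Module.Finite ℤ S] : Finite S := by
  obtain ⟨p, hp⟩ := CharP.exists S
  rcases Nat.eq_zero_or_pos p with h | h
  · subst h
    have : CharZero S := CharP.charP_to_charZero S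
    exfalso
    have hint : Algebra.IsIntegral ℤ S := Algebra.IsIntegral.of_finite ℤ S
    have h2 : IsIntegral ℤ ((2 : S)⁻¹) := hint.isIntegral _
    have h3 : IsIntegral ℤ ((2 : ℚ)⁻¹) := by
      have : (algebraMap ℚ S) ((2 : ℚ)⁻¹) = (2 : S)⁻¹ := by simp
      rw [← this] at h2
      exact (isIntegral_algebraMap_iff (algebraMap ℚ S).injective).mp h2
    obtain ⟨y, hy⟩ := IsIntegrallyClosed.isIntegral_iff.mp h3
    have h4 : (2 : ℤ) * y = 1 := by
      have : (2 : ℚ) * (y : ℚ) = 1 := by
        rw [show (y : ℚ) = 2⁻¹ from hy]; norm_num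
      exact_mod_cast this
    omega
  · have : NeZero p := ⟨h.ne'⟩
    let := ZMod.algebra S p
    have : Module.Finite (ZMod p) S := by
      have : IsScalarTower ℤ (ZMod p) S := inferInstance
      exact Module.Finite.of_restrictScalars_finite ℤ (ZMod p) S
    exact Module.finite_of_finite (ZMod p)


/-! ### The index set, the finite fields, the ultrafilter -/

/-- The index set: finite subsets of `ℂ`. -/
abbrev Idx : Type := Finset ℂ

/-- The subring generated by a finite set of complex numbers. -/
def A (s : Idx) : Subalgebra ℤ ℂ := Algebra.adjoin ℤ (s : Set ℂ)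

instance (s : Idx) : Algebra.FiniteType ℤ (A s) :=
  (Subalgebra.fg_iff_finiteType _).mp ⟨s, rfl⟩

/-- A maximal ideal of `A s`. -/
def mx (s : Idx) : Ideal (A s) := (Ideal.exists_maximal (A s)).choose

instance (s : Idx) : (mx s).IsMaximal := (Ideal.exists_maximal (A s)).choose_spec

/-- The residue field. -/
def F (s : Idx) : Type := A s ⧸ mx s

instance (s : Idx) : Field (F s) := Ideal.Quotient.field (mx s)

/-- The residue map. -/
def res (s : Idx) : A s →+* F s := Ideal.Quotient.mk (mx s)

theorem res_surjective (s : Idx) : Function.Surjective (res s) := Ideal.Quotient.mk_surjective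

instance (s : Idx) : Finite (F s) := by
  have : Algebra.FiniteType ℤ (F s) := by
    exact Algebra.FiniteType.of_surjective (A := A s) ((res s).toIntAlgHom) (res_surjective s)
  have h := finite_of_finite_type_of_isJacobsonRing ℤ (F s)
  exact @finite_of_finite_int (F s) _ h

/-- The ultrafilter. -/
def U : Ultrafilter Idx := Ultrafilter.of atTop

theorem U_le : (U : Filter Idx) ≤ atTop := Ultrafilter.of_le _

theorem eventually_mem (z : ℂ) : ∀ᶠ s in (U : Filter Idx), z ∈ A s := by
  apply U_le
  filter_upwards [eventually_ge_atTop ({z} : Finset ℂ)] with s hs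
  exact Algebra.subset_adjoin (hs (by simp))

/-- The product of the finite fields. -/
abbrev P : Type := ∀ s : Idx, F s

/-- The maximal ideal of the product attached to the ultrafilter. -/
def mU : Ideal P where
  carrier := {x | ∀ᶠ s in (U : Filter Idx), x s = 0}
  add_mem' {a b} ha hb := by
    simp only [Set.mem_ofPred_eq] at ha hb ⊢
    filter_upwards [ha, hb] with s h1 h2
    rw [Pi.add_apply, h1, h2, add_zero]
  zero_mem' := Eventually.of_forall fun _ => rfl
  smul_mem' c x hx := by
    simp only [Set.mem_ofPred_eq] at hx ⊢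
    filter_upwards [hx] with s h1
    rw [smul_eq_mul, Pi.mul_apply, h1, mul_zero]

theorem mem_mU {x : P} : x ∈ mU ↔ ∀ᶠ s in (U : Filter Idx), x s = 0 := Iff.rfl

instance mU_max : mU.IsMaximal := by
  rw [Ideal.isMaximal_iff]
  constructor
  · intro h
    rw [mem_mU] at h
    have : ∀ᶠ s in (U : Filter Idx), False := by
      filter_upwards [h] with s hs
      exact one_ne_zero hs
    exact this.exists.choose_spec
  · intro J x hJ hx hxJ
    rw [mem_mU, ← Ultrafilter.eventually_not] at hx
    have h1 : (1 : P) - x⁻¹ * x ∈ J := by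
      apply hJ
      rw [mem_mU]
      filter_upwards [hx] with s hs
      simp only [Pi.sub_apply, Pi.one_apply, Pi.mul_apply, Pi.inv_apply]
      rw [inv_mul_cancel₀ hs, sub_self]
    have h2 : x⁻¹ * x ∈ J := J.mul_mem_left _ hxJ
    have := J.add_mem h1 h2
    rwa [sub_add_cancel] at this

/-- The ultraproduct field. -/
def K : Type := P ⧸ mU

instance : Field K := Ideal.Quotient.field mU

/-- The class of a sequence. -/
def mk : P →+* K := Ideal.Quotient.mk mU

theorem mk_surjective : Function.Surjective mk := Ideal.Quotient.mk_surjective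

theorem mk_eq_zero {x : P} : mk x = 0 ↔ ∀ᶠ s in (U : Filter Idx), x s = 0 := by
  rw [← mem_mU]
  exact Ideal.Quotient.eq_zero_iff_mem

theorem mk_eq {x y : P} : mk x = mk y ↔ ∀ᶠ s in (U : Filter Idx), x s = y s := by
  rw [← sub_eq_zero, ← map_sub, mk_eq_zero]
  simp only [Pi.sub_apply, sub_eq_zero]

open Classical in
/-- The reduction of a complex number. -/
def cred (z : ℂ) : P := fun s => if h : z ∈ A s then res s ⟨z, h⟩ else 0

theorem cred_of_mem {z : ℂ} {s : Idx} (h : z ∈ A s) : cred z s = res s ⟨z, h⟩ := dif_pos h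

/-- The embedding of the complex numbers in the ultraproduct. -/
def iota : ℂ →+* K where
  toFun z := mk (cred z)
  map_one' := by
    rw [← map_one mk, mk_eq]
    refine Eventually.of_forall fun s => ?_
    rw [cred_of_mem (one_mem _)]
    exact map_one (res s)
  map_mul' x y := by
    rw [← map_mul mk, mk_eq]
    filter_upwards [eventually_mem x, eventually_mem y] with s hx hy
    rw [cred_of_mem (mul_mem hx hy), Pi.mul_apply, cred_of_mem hx, cred_of_mem hy, ← map_mul]
    rfl
  map_zero' := by
    rw [← map_zero mk, mk_eq]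
    refine Eventually.of_forall fun s => ?_
    rw [cred_of_mem (zero_mem _)]
    exact map_zero (res s)
  map_add' x y := by
    rw [← map_add mk, mk_eq]
    filter_upwards [eventually_mem x, eventually_mem y] with s hx hy
    rw [cred_of_mem (add_mem hx hy), Pi.add_apply, cred_of_mem hx, cred_of_mem hy, ← map_add]
    rfl

theorem iota_apply (z : ℂ) : iota z = mk (cred z) := rfl

/-- Reduction of a polynomial, evaluated at a point over the finite field. -/
def ered {n : ℕ} (h : MvPolynomial (Fin n) ℂ) (s : Idx) (y : Fin n → F s) : F s :=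
  ∑ d ∈ h.support, cred (h.coeff d) s * ∏ j, y j ^ d j

/-- The tuple of classes of a sequence of tuples. -/
def mkv {n : ℕ} (y : ∀ s, Fin n → F s) : Fin n → K := fun j => mk (fun s => y s j)

theorem mkv_surjective {n : ℕ} (a : Fin n → K) : ∃ y : ∀ s, Fin n → F s, mkv y = a := by
  choose g hg using fun j => mk_surjective (a j)
  exact ⟨fun s j => g j s, funext fun j => hg j⟩

theorem mkv_eq {n : ℕ} {y y' : ∀ s, Fin n → F s} :
    mkv y = mkv y' ↔ ∀ᶠ s in (U : Filter Idx), y s = y' s := by
  simp only [funext_iff, mkv, mk_eq, eventually_all]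

theorem eval₂_iota {n : ℕ} (h : MvPolynomial (Fin n) ℂ) (y : ∀ s, Fin n → F s) :
    MvPolynomial.eval₂ iota (mkv y) h = mk (fun s => ered h s (y s)) := by
  rw [MvPolynomial.eval₂_eq']
  have : (fun s => ered h s (y s)) =
      ∑ d ∈ h.support, cred (h.coeff d) * ∏ j, (fun s => y s j : P) ^ d j := by
    funext s
    simp only [ered, Finset.sum_apply, Pi.mul_apply, Finset.prod_apply, Pi.pow_apply]
  rw [this, map_sum]
  refine Finset.sum_congr rfl fun d _ => ?_
  rw [map_mul, map_prod, iota_apply]
  simp only [map_pow, mkv]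

end Pool.Agent.Lib.MP_5b74a0_ag.Ultra
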