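import Mathlib
import Pool.Agent.Lib.MP_5b74a0_ag.Ultra
import Pool.Agent.Lib.MP_5b74a0_ag.Comb

noncomputable section

namespace Pool.Agent.Lib.MP_5b74a0_ag.Geo

open CategoryTheory CategoryTheory.Limits AlgebraicGeometry Filter
open Pool.Agent.Lib.MP_5b74a0_ag.Ultra Pool.Agent.Lib.MP_5b74a0_ag.Comb

/-- The spectrum of the complex numbers. -/
abbrev SpecC : Scheme.{0} := Spec (CommRingCat.of ℂ)

/-- The spectrum of the ultraproduct field over the spectrum of the complex numbers. -/
abbrev SpecK : Over SpecC := Over.mk (Spec.map (CommRingCat.ofHom iota))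

/-- The points with values in the ultraproduct field. -/
abbrev pts (X : Over SpecC) : Type := SpecK ⟶ X

/-- An affine chart. -/
structure Chart (X : Over SpecC) where
  n : ℕ
  B : CommRingCat.{0}
  φ : MvPolynomial (Fin n) ℂ →+* B
  surj : Function.Surjective φ
  f : Over.mk (Spec.map (CommRingCat.ofHom (φ.comp MvPolynomial.C))) ⟶ X

/-- The domain of a chart. -/
abbrev Chart.dom {X : Over SpecC} (c : Chart X) : Over SpecC :=
  Over.mk (Spec.map (CommRingCat.ofHom (c.φ.comp MvPolynomial.C)))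

/-- The ring homomorphism of a point of the domain. -/
def Chart.hom {X : Over SpecC} (c : Chart X) (b : pts c.dom) : c.B →+* K :=
  (Spec.preimage b.left).hom

theorem Chart.left_eq {X : Over SpecC} (c : Chart X) (b : pts c.dom) :
    b.left = Spec.map (CommRingCat.ofHom (c.hom b)) := by
  simp [Chart.hom]

theorem Chart.hom_comp {X : Over SpecC} (c : Chart X) (b : pts c.dom) :
    (c.hom b).comp (c.φ.comp MvPolynomial.C) = iota := by
  have h := Over.w b
  simp only [Over.mk_hom] at h
  rw [c.left_eq b, ← Spec.map_comp] at h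
  have h2 := Spec.map_injective h
  exact congrArg CommRingCat.Hom.hom h2

/-- The point of the domain attached to a ring homomorphism. -/
def Chart.ofHom {X : Over SpecC} (c : Chart X) (g : c.B →+* K)
    (hg : g.comp (c.φ.comp MvPolynomial.C) = iota) : pts c.dom :=
  Over.homMk (Spec.map (CommRingCat.ofHom g)) (by
    simp only [Over.mk_hom]
    rw [← Spec.map_comp, ← CommRingCat.ofHom_comp, hg])

theorem Chart.hom_ofHom {X : Over SpecC} (c : Chart X) (g : c.B →+* K)
    (hg : g.comp (c.φ.comp MvPolynomial.C) = iota) : c.hom (c.ofHom g hg) = g := by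
  simp [Chart.hom, Chart.ofHom]

theorem Chart.ext_hom {X : Over SpecC} (c : Chart X) {b b' : pts c.dom}
    (h : c.hom b = c.hom b') : b = b' := by
  apply Over.OverMorphism.ext
  rw [c.left_eq, c.left_eq, h]

/-- The coordinates of a point of the domain. -/
def Chart.coord {X : Over SpecC} (c : Chart X) (b : pts c.dom) : Fin c.n → K :=
  fun j => c.hom b (c.φ (MvPolynomial.X j))

theorem Chart.hom_φ {X : Over SpecC} (c : Chart X) (b : pts c.dom)
    (h : MvPolynomial (Fin c.n) ℂ) :
    c.hom b (c.φ h) = MvPolynomial.eval₂ iota (c.coord b) h := by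
  have : (c.hom b).comp c.φ = MvPolynomial.eval₂Hom iota (c.coord b) := by
    apply MvPolynomial.ringHom_ext
    · intro r
      have := congrArg (fun g : ℂ →+* K => g r) (c.hom_comp b)
      simpa using this
    · intro j
      simp [Chart.coord]
  exact congrArg (fun g : MvPolynomial (Fin c.n) ℂ →+* K => g h) this

theorem Chart.coord_injective {X : Over SpecC} (c : Chart X) {b b' : pts c.dom}
    (h : c.coord b = c.coord b') : b = b' := by
  apply c.ext_hom
  ext x
  obtain ⟨p, rfl⟩ := c.surj x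
  rw [c.hom_φ, c.hom_φ, h]

theorem Chart.exists_coord {X : Over SpecC} (c : Chart X) (a : Fin c.n → K)
    (ha : ∀ h ∈ RingHom.ker c.φ, MvPolynomial.eval₂ iota a h = 0) :
    ∃ b : pts c.dom, c.coord b = a := by
  let g : c.B →+* K := c.φ.liftOfSurjective c.surj ⟨MvPolynomial.eval₂Hom iota a, fun h hh => ha h hh⟩
  have hg : ∀ p, g (c.φ p) = MvPolynomial.eval₂ iota a p := fun p =>
    RingHom.liftOfRightInverse_comp_apply _ _ _ _ p
  have hg2 : g.comp (c.φ.comp MvPolynomial.C) = iota := by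
    ext z
    simp [hg]
  refine ⟨c.ofHom g hg2, ?_⟩
  funext j
  simp only [Chart.coord, c.hom_ofHom, hg, MvPolynomial.eval₂_X]

/-- Equations of a chart. -/
def Chart.eqs {X : Over SpecC} (c : Chart X) : Finset (MvPolynomial (Fin c.n) ℂ) :=
  (IsNoetherian.noetherian (RingHom.ker c.φ)).choose

theorem Chart.span_eqs {X : Over SpecC} (c : Chart X) :
    Ideal.span (c.eqs : Set (MvPolynomial (Fin c.n) ℂ)) = RingHom.ker c.φ :=
  (IsNoetherian.noetherian (RingHom.ker c.φ)).choose_spec

/-- The points over the finite field. -/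
def Chart.D {X : Over SpecC} (c : Chart X) (s : Idx) : Set (Fin c.n → F s) :=
  {y | ∀ h ∈ c.eqs, ered h s y = 0}

theorem Chart.exists_iff {X : Over SpecC} (c : Chart X) (y : ∀ s, Fin c.n → F s) :
    (∃ b : pts c.dom, c.coord b = mkv y) ↔ ∀ᶠ s in (U : Filter Idx), y s ∈ c.D s := by
  have key : (∀ᶠ s in (U : Filter Idx), y s ∈ c.D s) ↔
      ∀ h ∈ c.eqs, MvPolynomial.eval₂ iota (mkv y) h = 0 := by
    simp only [Chart.D, Set.mem_ofPred_eq, eval₂_iota, mk_eq_zero]
    rw [Filter.eventually_all_finset]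
  rw [key]
  constructor
  · rintro ⟨b, hb⟩ h hh
    rw [← hb, ← c.hom_φ]
    have : h ∈ RingHom.ker c.φ := by
      rw [← c.span_eqs]
      exact Ideal.subset_span hh
    rw [RingHom.mem_ker] at this
    rw [this, map_zero]
  · intro h
    apply c.exists_coord
    intro p hp
    rw [← c.span_eqs] at hp
    have : Ideal.span (c.eqs : Set (MvPolynomial (Fin c.n) ℂ)) ≤
        RingHom.ker (MvPolynomial.eval₂Hom iota (mkv y)) := by
      rw [Ideal.span_le]
      intro q hq
      exact h q hq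
    exact this hp

/-- The description of the points by a chart. -/
def Chart.rep {X : Over SpecC} (c : Chart X) : Rep U (pts X) where
  T s := Fin c.n → F s
  fin s := inferInstance
  ne s := inferInstance
  rep y x := ∃ b : pts c.dom, c.coord b = mkv y ∧ b ≫ c.f = x
  fn := by
    rintro y x x' ⟨b, hb, rfl⟩ ⟨b', hb', rfl⟩
    rw [c.coord_injective (hb.trans hb'.symm)]
  ae := by
    rintro y y' x h ⟨b, hb, rfl⟩
    exact ⟨b, by rw [hb, mkv_eq]; exact h, rfl⟩

/-- Composition of a chart with a morphism. -/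
def Chart.comp {X Y : Over SpecC} (c : Chart X) (g : X ⟶ Y) : Chart Y where
  n := c.n
  B := c.B
  φ := c.φ
  surj := c.surj
  f := c.f ≫ g

theorem exists_chart (X : Over SpecC) [LocallyOfFiniteType X.hom] [QuasiCompact X.hom] :
    ∃ c : Chart X, c.rep.Surj := by
  have hX : CompactSpace X.left := by
    have := QuasiCompact.compactSpace_of_compactSpace X.hom
    exact this
  let 𝒰 : X.left.OpenCover := X.left.affineCover.finiteSubcover
  have haff (i) : IsAffine (𝒰.X i) := inferInstanceAs (IsAffine (Spec _))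
  let V : Scheme.{0} := ∐ 𝒰.X
  have hV : IsAffine V := inferInstance
  let p : V ⟶ X.left := Limits.Sigma.desc 𝒰.f
  have hp : LocallyOfFiniteType p :=
    IsZariskiLocalAtSource.sigmaDesc (P := @LocallyOfFiniteType) (fun i => inferInstance)
  let B : CommRingCat.{0} := Γ(V, ⊤)
  let e : V ≅ Spec B := V.isoSpec
  let q : Spec B ⟶ SpecC := e.inv ≫ p ≫ X.hom
  have hq : LocallyOfFiniteType q := inferInstance
  obtain ⟨ψ, hψ⟩ : ∃ ψ : CommRingCat.of ℂ ⟶ B, Spec.map ψ = q := ⟨Spec.preimage q, by simp⟩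
  have hft : ψ.hom.FiniteType := by
    rw [← HasRingHomProperty.Spec_iff (P := @LocallyOfFiniteType), hψ]
    exact hq
  algebraize [ψ.hom]
  obtain ⟨n, φ, hφ⟩ := Algebra.FiniteType.iff_quotient_mvPolynomial''.mp hft
  have hφC : (φ : MvPolynomial (Fin n) ℂ →+* B).comp MvPolynomial.C = ψ.hom := by
    ext z
    exact φ.commutes z
  let c : Chart X :=
    { n := n
      B := B
      φ := φ
      surj := hφ
      f := Over.homMk (e.inv ≫ p) (by
        simp only [Over.mk_hom]
        rw [hφC, Category.assoc]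
        exact hψ.symm) }
  refine ⟨c, fun x => ?_⟩
  have hsub : Subsingleton (Spec (CommRingCat.of K)) := by
    change Subsingleton (PrimeSpectrum K)
    infer_instance
  obtain ⟨pt⟩ : Nonempty (Spec (CommRingCat.of K)) := by
    change Nonempty (PrimeSpectrum K)
    infer_instance
  obtain ⟨i, y, hy⟩ := 𝒰.exists_eq (x.left pt)
  have hr : Set.range x.left ⊆ Set.range (𝒰.f i) := by
    rintro _ ⟨z, rfl⟩
    rw [@Subsingleton.elim _ hsub z pt]
    exact ⟨y, hy⟩
  let l : Spec (CommRingCat.of K) ⟶ 𝒰.X i := IsOpenImmersion.lift (𝒰.f i) x.left hr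
  have hl : l ≫ 𝒰.f i = x.left := IsOpenImmersion.lift_fac _ _ _
  let b0 : Spec (CommRingCat.of K) ⟶ Spec B := l ≫ Limits.Sigma.ι 𝒰.X i ≫ e.hom
  have hb0 : b0 ≫ (e.inv ≫ p) = x.left := by
    simp only [b0, Category.assoc, Iso.hom_inv_id_assoc]
    rw [Limits.Sigma.ι_desc, hl]
  let b : pts c.dom := Over.homMk b0 (by
    simp only [Over.mk_hom]
    have : Spec.map (CommRingCat.ofHom (c.φ.comp MvPolynomial.C)) = (e.inv ≫ p) ≫ X.hom :=
      (Over.w c.f).symm
    rw [this, ← Category.assoc, hb0]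
    exact Over.w x)
  obtain ⟨y, hy⟩ := mkv_surjective (c.coord b)
  refine ⟨y, b, hy.symm, ?_⟩
  apply Over.OverMorphism.ext
  exact hb0


theorem Chart.exists_poly {X Y : Over SpecC} (c : Chart X) (c' : Chart Y) (g : c'.dom ⟶ c.dom) :
    ∃ P : Fin c.n → MvPolynomial (Fin c'.n) ℂ, ∀ b : pts c'.dom, ∀ j,
      c.coord (b ≫ g) j = MvPolynomial.eval₂ iota (c'.coord b) (P j) := by
  let u : c.B ⟶ c'.B := Spec.preimage g.left
  choose P hP using fun j => c'.surj (u.hom (c.φ (MvPolynomial.X j)))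
  refine ⟨P, fun b j => ?_⟩
  rw [← c'.hom_φ, hP]
  have : c.hom (b ≫ g) = (c'.hom b).comp u.hom := by
    have h1 : (b ≫ g).left = Spec.map (u ≫ CommRingCat.ofHom (c'.hom b)) := by
      rw [Over.comp_left, Spec.map_comp, ← c'.left_eq]
      simp [u]
    have h2 := c.left_eq (b ≫ g)
    rw [h1] at h2
    have h3 := Spec.map_injective h2
    exact (congrArg CommRingCat.Hom.hom h3).symm
  simp only [Chart.coord, this]
  rfl

theorem Chart.finType {X : Over SpecC} (c : Chart X) : LocallyOfFiniteType c.dom.hom := by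
  change LocallyOfFiniteType (Spec.map (CommRingCat.ofHom (c.φ.comp MvPolynomial.C)))
  rw [HasRingHomProperty.Spec_iff (P := @LocallyOfFiniteType)]
  have h1 : RingHom.FiniteType (MvPolynomial.C : ℂ →+* MvPolynomial (Fin c.n) ℂ) := by
    have : (algebraMap ℂ (MvPolynomial (Fin c.n) ℂ)).FiniteType := by
      rw [RingHom.finiteType_algebraMap]
      infer_instance
    exact this
  exact (RingHom.FiniteType.of_surjective c.φ c.surj).comp h1

theorem exists_compat (X : Over SpecC) [LocallyOfFiniteType X.hom] [IsSeparated X.hom]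
    (c c' : Chart X) : ∃ R, Compat c.rep c'.rep R := by
  let W : Over SpecC := Over.mk (pullback.fst c.f.left c'.f.left ≫ c.dom.hom)
  let w1 : W ⟶ c.dom := Over.homMk (pullback.fst c.f.left c'.f.left) rfl
  let w2 : W ⟶ c'.dom := Over.homMk (pullback.snd c.f.left c'.f.left) (by
    have h1 := Over.w c.f
    have h2 := Over.w c'.f
    change pullback.snd c.f.left c'.f.left ≫ c'.dom.hom =
      pullback.fst c.f.left c'.f.left ≫ c.dom.hom
    rw [← h1, ← h2, pullback.condition_assoc])
  have hww : w1 ≫ c.f = w2 ≫ c'.f := by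
    apply Over.OverMorphism.ext
    exact pullback.condition
  have h3 : LocallyOfFiniteType (c'.f.left ≫ X.hom) := by
    rw [Over.w c'.f]
    exact c'.finType
  have h4 : LocallyOfFiniteType c'.f.left := locallyOfFiniteType_of_comp _ X.hom
  have h5 : QuasiCompact (c'.f.left ≫ X.hom) := by
    rw [Over.w c'.f]
    change QuasiCompact (Spec.map _)
    infer_instance
  have h6 : QuasiCompact c'.f.left := QuasiCompact.of_comp _ X.hom
  have h7 : LocallyOfFiniteType c.dom.hom := c.finType
  have h8 : QuasiCompact c.dom.hom := by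
    change QuasiCompact (Spec.map _)
    infer_instance
  have h9 : LocallyOfFiniteType W.hom := inferInstanceAs (LocallyOfFiniteType (_ ≫ _))
  have h10 : QuasiCompact W.hom := inferInstanceAs (QuasiCompact (_ ≫ _))
  obtain ⟨c'', hc''⟩ := exists_chart W
  obtain ⟨P, hP⟩ := c.exists_poly c'' (c''.f ≫ w1)
  obtain ⟨P', hP'⟩ := c'.exists_poly c'' (c''.f ≫ w2)
  refine ⟨fun s y y' => ∃ w ∈ c''.D s, (∀ j, y j = ered (P j) s w) ∧
    (∀ j, y' j = ered (P' j) s w), fun y y' => ?_⟩
  constructor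
  · rintro ⟨x, ⟨b, hb, hbx⟩, ⟨b', hb', hbx'⟩⟩
    -- the point of the fibre product
    let l : SpecK ⟶ W := Over.homMk (pullback.lift b.left b'.left (by
      have := congrArg (fun t : SpecK ⟶ X => t.left) (hbx.trans hbx'.symm)
      exact this)) (by
        change pullback.lift _ _ _ ≫ pullback.fst _ _ ≫ c.dom.hom = _
        rw [pullback.lift_fst_assoc]
        exact Over.w b)
    have hl1 : l ≫ w1 = b := by
      apply Over.OverMorphism.ext
      exact pullback.lift_fst _ _ _
    have hl2 : l ≫ w2 = b' := by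
      apply Over.OverMorphism.ext
      exact pullback.lift_snd _ _ _
    obtain ⟨w, b'', hb'', hbl⟩ := hc'' l
    have hw := (c''.exists_iff w).mp ⟨b'', hb''⟩
    have e1 : ∀ j, ∀ᶠ s in (U : Filter Idx), y s j = ered (P j) s (w s) := by
      intro j
      have h := hP b'' j
      rw [← Category.assoc, hbl, hl1, hb, hb'', eval₂_iota] at h
      exact mk_eq.mp h
    have e2 : ∀ j, ∀ᶠ s in (U : Filter Idx), y' s j = ered (P' j) s (w s) := by
      intro j
      have h := hP' b'' j
      rw [← Category.assoc, hbl, hl2, hb', hb'', eval₂_iota] at h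
      exact mk_eq.mp h
    rw [← eventually_all] at e1 e2
    filter_upwards [hw, e1, e2] with s h1 h2 h3 using ⟨w s, h1, h2, h3⟩
  · intro h
    rw [Filter.skolem] at h
    obtain ⟨w, hw⟩ := h
    obtain ⟨b'', hb''⟩ := (c''.exists_iff w).mpr (hw.mono fun s hs => hs.1)
    refine ⟨(b'' ≫ c''.f ≫ w1) ≫ c.f, ⟨b'' ≫ c''.f ≫ w1, ?_, rfl⟩, ⟨b'' ≫ c''.f ≫ w2, ?_, ?_⟩⟩
    · funext j
      rw [hP b'' j, hb'', eval₂_iota]
      exact (mk_eq.mpr (hw.mono fun s hs => hs.2.1 j)).symm
    · funext j
      rw [hP' b'' j, hb'', eval₂_iota]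
      exact (mk_eq.mpr (hw.mono fun s hs => hs.2.2 j)).symm
    · simp only [Category.assoc, hww]

instance : Subsingleton (Spec (CommRingCat.of K)) := by
  change Subsingleton (PrimeSpectrum K)
  infer_instance

instance : Nonempty (Spec (CommRingCat.of K)) := by
  change Nonempty (PrimeSpectrum K)
  infer_instance

instance : AlgebraicGeometry.IsReduced (Spec (CommRingCat.of K)) := by
  have : _root_.IsReduced (CommRingCat.of K) := inferInstanceAs (_root_.IsReduced K)
  infer_instance

instance : Subsingleton SpecK.left := inferInstanceAs (Subsingleton (Spec (CommRingCat.of K)))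

instance : AlgebraicGeometry.IsReduced SpecK.left :=
  inferInstanceAs (AlgebraicGeometry.IsReduced (Spec (CommRingCat.of K)))

/-- The point of the spectrum of the ultraproduct field. -/
def ptK : SpecK.left := Classical.arbitrary (Spec (CommRingCat.of K))

theorem exists_lift_closed {X Z : Over SpecC} (i : Z ⟶ X) [IsClosedImmersion i.left]
    (x : pts X) (h : x.left ptK ∈ Set.range i.left) : ∃ z : pts Z, z ≫ i = x := by
  have hs : Surjective (pullback.snd i.left x.left) := by
    constructor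
    intro y
    obtain ⟨z, hz⟩ := h
    have hy : y = ptK := Subsingleton.elim _ _
    obtain ⟨w, hw1, hw2⟩ := Scheme.Pullback.exists_preimage_pullback (f := i.left) (g := x.left) z ptK hz
    exact ⟨w, by rw [hw2, hy]⟩
  have : IsIso (pullback.snd i.left x.left) := isIso_of_isClosedImmersion_of_surjective _
  let z : pts Z := Over.homMk (inv (pullback.snd i.left x.left) ≫ pullback.fst i.left x.left) (by
    rw [← Over.w i, Category.assoc, pullback.condition_assoc, IsIso.inv_hom_id_assoc]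
    exact Over.w x)
  refine ⟨z, ?_⟩
  apply Over.OverMorphism.ext
  change (inv (pullback.snd i.left x.left) ≫ pullback.fst i.left x.left) ≫ i.left = x.left
  rw [Category.assoc, pullback.condition, IsIso.inv_hom_id_assoc]

theorem exists_lift_open {X Z : Over SpecC} (i : Z ⟶ X) [IsOpenImmersion i.left]
    (x : pts X) (h : x.left ptK ∈ Set.range i.left) : ∃ z : pts Z, z ≫ i = x := by
  have hr : Set.range x.left ⊆ Set.range i.left := by
    rintro _ ⟨y, rfl⟩
    rw [Subsingleton.elim (α := Spec (CommRingCat.of K)) y ptK]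
    exact h
  have hl := IsOpenImmersion.lift_fac i.left x.left hr
  let z : pts Z := Over.homMk (IsOpenImmersion.lift i.left x.left hr) (by
    rw [← Over.w i, ← Category.assoc, hl]
    exact Over.w x)
  refine ⟨z, ?_⟩
  apply Over.OverMorphism.ext
  exact hl

theorem comp_injective {X Z : Over SpecC} (i : Z ⟶ X) [Mono i.left] :
    Function.Injective (fun z : pts Z => z ≫ i) := by
  intro z z' h
  apply Over.OverMorphism.ext
  rw [← cancel_mono i.left]
  exact congrArg (fun t : SpecK ⟶ X => t.left) h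

theorem cover {X Z W : Over SpecC} (i : Z ⟶ X) (j : W ⟶ X) [IsClosedImmersion i.left]
    [IsOpenImmersion j.left] (h : Set.range i.left = (Set.range j.left)ᶜ) (x : pts X) :
    (∃ z : pts Z, z ≫ i = x) ∨ (∃ w : pts W, w ≫ j = x) := by
  by_cases hx : x.left ptK ∈ Set.range j.left
  · exact Or.inr (exists_lift_open j x hx)
  · exact Or.inl (exists_lift_closed i x (by rw [h]; exact hx))

theorem disj {X Z W : Over SpecC} (i : Z ⟶ X) (j : W ⟶ X)
    (h : Set.range i.left = (Set.range j.left)ᶜ) (z : pts Z) (w : pts W) : z ≫ i ≠ w ≫ j := by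
  intro he
  have h1 : (z ≫ i).left ptK ∈ Set.range i.left := ⟨z.left ptK, rfl⟩
  rw [h, he] at h1
  exact h1 ⟨w.left ptK, rfl⟩


theorem Chart.comp_rep {X Y : Over SpecC} (c : Chart X) (g : X ⟶ Y) :
    (c.comp g).rep = c.rep.map (fun x => x ≫ g) := by
  unfold Chart.rep Rep.map Chart.comp
  congr 1
  funext y x
  apply propext
  constructor
  · rintro ⟨b, hb, rfl⟩
    exact ⟨b ≫ c.f, ⟨b, hb, rfl⟩, by simp⟩
  · rintro ⟨_, ⟨b, hb, rfl⟩, rfl⟩
    exact ⟨b, hb, by simp⟩

/-- The value ring. -/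
abbrev Val : Type := Filter.Germ (U : Filter Idx) ℚ

/-- The germ of a function with natural values. -/
def germ (f : Idx → ℕ) : Val := ((fun s => (f s : ℚ) : Idx → ℚ) : Filter.Germ (U : Filter Idx) ℚ)

theorem germ_eq {f g : Idx → ℕ} : germ f = germ g ↔ ∀ᶠ s in (U : Filter Idx), f s = g s := by
  unfold germ
  rw [Filter.Germ.coe_eq]
  simp only [EventuallyEq, Nat.cast_inj]

/-- The family `f` counts the points of `X`. -/
def IsCnt (X : Over SpecC) (f : Idx → ℕ) : Prop :=
  ∃ (c : Chart X) (R : ∀ s, c.rep.T s → c.rep.T s → Prop), c.rep.Surj ∧ Compat c.rep c.rep R ∧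
    ∀ᶠ s in (U : Filter Idx), f s = ncls (R s)

theorem exists_isCnt (X : Over SpecC) [LocallyOfFiniteType X.hom] [QuasiCompact X.hom]
    [IsSeparated X.hom] : ∃ f, IsCnt X f := by
  obtain ⟨c, hc⟩ := exists_chart X
  obtain ⟨R, hR⟩ := exists_compat X c c
  exact ⟨fun s => ncls (R s), c, R, hc, hR, Eventually.of_forall fun _ => rfl⟩

theorem IsCnt.unique {X : Over SpecC} [LocallyOfFiniteType X.hom]
    [IsSeparated X.hom] {f g : Idx → ℕ} (hf : IsCnt X f) (hg : IsCnt X g) : germ f = germ g := by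
  obtain ⟨c, R, h1, h2, h3⟩ := hf
  obtain ⟨c', R', h1', h2', h3'⟩ := hg
  obtain ⟨Q, hQ⟩ := exists_compat X c c'
  have := ncls_eq_of_compat h1 h1' h2 h2' hQ
  rw [germ_eq]
  filter_upwards [this, h3, h3'] with s a b c
  rw [b, c, a]

theorem IsCnt.add {X Z W : Over SpecC} [LocallyOfFiniteType X.hom] [IsSeparated X.hom]
    (i : Z ⟶ X) (j : W ⟶ X)
    [IsClosedImmersion i.left] [IsOpenImmersion j.left]
    (h : Set.range i.left = (Set.range j.left)ᶜ) {f g k : Idx → ℕ} (hf : IsCnt X f)
    (hg : IsCnt Z g) (hk : IsCnt W k) : germ f = germ g + germ k := by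
  obtain ⟨c, R, h1, h2, h3⟩ := hf
  obtain ⟨c₁, R₁, h1', h2', h3'⟩ := hg
  obtain ⟨c₂, R₂, h1'', h2'', h3''⟩ := hk
  have hs := Rep.sum_surj (i := fun z : pts Z => z ≫ i) (j := fun z : pts W => z ≫ j) h1' h1''
    (cover i j h)
  have hself := compat_sum_self (comp_injective i) (comp_injective j) (disj i j h) h2' h2''
  obtain ⟨Q₁, hQ₁⟩ : ∃ Q, Compat c.rep (c₁.rep.map fun x => x ≫ i) Q := by
    rw [← Chart.comp_rep]; exact exists_compat X c (c₁.comp i)
  obtain ⟨Q₂, hQ₂⟩ : ∃ Q, Compat c.rep (c₂.rep.map fun x => x ≫ j) Q := by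
    rw [← Chart.comp_rep]; exact exists_compat X c (c₂.comp j)
  have hQ := compat_sum hQ₁ hQ₂
  have key := ncls_eq_of_compat h1 hs h2 hself hQ
  have : germ f = germ (fun s => g s + k s) := by
    rw [germ_eq]
    filter_upwards [key, h3, h3', h3''] with s a b b' b''
    rw [b, a, b', b'']
    exact ncls_sum _ _
  rw [this]
  unfold germ
  rw [← Filter.Germ.coe_add]
  congr 1
  funext s
  simp

theorem IsCnt.mul {X Y Z : Over SpecC} [LocallyOfFiniteType X.hom] [IsSeparated X.hom]
    [LocallyOfFiniteType Y.hom] [IsSeparated Y.hom]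
    (p : Z ⟶ X) (q : Z ⟶ Y) (h : IsLimit (BinaryFan.mk p q)) {f g k : Idx → ℕ} (hf : IsCnt Z f)
    (hg : IsCnt X g) (hk : IsCnt Y k) : germ f = germ g * germ k := by
  obtain ⟨c, R, h1, h2, h3⟩ := hf
  obtain ⟨c₁, R₁, h1', h2', h3'⟩ := hg
  obtain ⟨c₂, R₂, h1'', h2'', h3''⟩ := hk
  have hpq : ∀ x x' : pts Z, x ≫ p = x' ≫ p → x ≫ q = x' ≫ q → x = x' := by
    intro x x' h1 h2
    exact BinaryFan.IsLimit.hom_ext h h1 h2
  have hex : ∀ (a : pts X) (b : pts Y), ∃ x : pts Z, x ≫ p = a ∧ x ≫ q = b := by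
    intro a b
    obtain ⟨l, hl1, hl2⟩ := BinaryFan.IsLimit.lift' h a b
    exact ⟨l, hl1, hl2⟩
  have hs := Rep.prod_surj (p := fun z : pts Z => z ≫ p) (q := fun z : pts Z => z ≫ q) hpq h1' h1''
  have hself := compat_prod_self (p := fun z : pts Z => z ≫ p) (q := fun z : pts Z => z ≫ q) hpq
    hex h2' h2''
  obtain ⟨Q₁, hQ₁⟩ : ∃ Q, Compat (c.rep.map fun x => x ≫ p) c₁.rep Q := by
    rw [← Chart.comp_rep]; exact exists_compat X (c.comp p) c₁
  obtain ⟨Q₂, hQ₂⟩ : ∃ Q, Compat (c.rep.map fun x => x ≫ q) c₂.rep Q := by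
    rw [← Chart.comp_rep]; exact exists_compat Y (c.comp q) c₂
  have hQ := compat_prod (r := c.rep) hpq hQ₁ hQ₂
  have key := ncls_eq_of_compat h1 hs h2 hself hQ
  have : germ f = germ (fun s => g s * k s) := by
    rw [germ_eq]
    filter_upwards [key, h3, h3', h3''] with s a b b' b''
    rw [b, a, b', b'']
    exact ncls_prod _ _
  rw [this]
  unfold germ
  rw [← Filter.Germ.coe_mul]
  congr 1
  funext s
  simp

theorem IsCnt.of_iso {X Y : Over SpecC} (e : X ≅ Y) {f : Idx → ℕ} (hf : IsCnt X f) :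
    IsCnt Y f := by
  obtain ⟨c, R, h1, h2, h3⟩ := hf
  have hrep := c.comp_rep e.hom
  refine ⟨c.comp e.hom, R, ?_, ?_, h3⟩
  · intro y
    obtain ⟨z, b, hb, hb'⟩ := h1 (y ≫ e.inv)
    refine ⟨z, b, hb, ?_⟩
    change b ≫ c.f ≫ e.hom = y
    rw [← Category.assoc, hb', Category.assoc, e.inv_hom_id, Category.comp_id]
  · intro y y'
    rw [← h2]
    constructor
    · rintro ⟨x, ⟨b, hb, hb'⟩, ⟨b1, hb1, hb1'⟩⟩
      refine ⟨x ≫ e.inv, ⟨b, hb, ?_⟩, ⟨b1, hb1, ?_⟩⟩
      · rw [← hb']
        change b ≫ c.f = (b ≫ c.f ≫ e.hom) ≫ e.inv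
        simp
      · rw [← hb1']
        change b1 ≫ c.f = (b1 ≫ c.f ≫ e.hom) ≫ e.inv
        simp
    · rintro ⟨x, ⟨b, hb, hb'⟩, ⟨b1, hb1, hb1'⟩⟩
      refine ⟨x ≫ e.hom, ⟨b, hb, ?_⟩, ⟨b1, hb1, ?_⟩⟩
      · change b ≫ c.f ≫ e.hom = _
        rw [← hb', Category.assoc]
      · change b1 ≫ c.f ≫ e.hom = _
        rw [← hb1', Category.assoc]

/-- Affine space. -/
abbrev Aff (n : ℕ) : Over SpecC :=
  Over.mk (Spec.map (CommRingCat.ofHom (MvPolynomial.C : ℂ →+* MvPolynomial (Fin n) ℂ)))

/-- The tautological chart of affine space. -/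
def affChart (n : ℕ) : Chart (Aff n) where
  n := n
  B := CommRingCat.of (MvPolynomial (Fin n) ℂ)
  φ := RingHom.id _
  surj := Function.surjective_id
  f := Over.homMk (𝟙 _) (by
    simp only [Over.mk_hom]
    rw [Category.id_comp])

theorem affChart_exists (n : ℕ) (y : ∀ s, Fin n → F s) :
    ∃ b : pts (affChart n).dom, (affChart n).coord b = mkv y := by
  apply Chart.exists_coord
  intro h hh
  have : h = 0 := hh
  rw [this]
  simp

theorem affChart_inj (n : ℕ) (b b' : pts (affChart n).dom)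
    (h : b ≫ (affChart n).f = b' ≫ (affChart n).f) : b = b' := by
  apply Over.OverMorphism.ext
  have := congrArg (fun t : SpecK ⟶ Aff n => t.left) h
  change b.left ≫ 𝟙 _ = b'.left ≫ 𝟙 _ at this
  rwa [Category.comp_id, Category.comp_id] at this

theorem isCnt_aff (n : ℕ) : IsCnt (Aff n) (fun s => Nat.card (Fin n → F s)) := by
  refine ⟨affChart n, fun s a b => a = b, ?_, ?_, ?_⟩
  · intro x
    let b : pts (affChart n).dom := Over.homMk x.left (Over.w x)
    obtain ⟨y, hy⟩ := mkv_surjective ((affChart n).coord b)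
    refine ⟨y, b, hy.symm, ?_⟩
    apply Over.OverMorphism.ext
    change x.left ≫ 𝟙 _ = x.left
    exact Category.comp_id _
  · intro y y'
    constructor
    · rintro ⟨x, ⟨b, hb, rfl⟩, ⟨b', hb', h⟩⟩
      obtain rfl := affChart_inj n _ _ h
      exact mkv_eq.mp (hb.symm.trans hb')
    · intro h
      obtain ⟨b, hb⟩ := affChart_exists n y
      exact ⟨b ≫ (affChart n).f, ⟨b, hb, rfl⟩, ⟨b, hb.trans (mkv_eq.mpr h), rfl⟩⟩
  · refine Eventually.of_forall fun s => ?_
    exact (ncls_eq (T := Fin n → F s)).symm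

/-- The class of the cardinality of the finite fields. -/
def qq : Val := germ (fun s => Nat.card (F s))

theorem one_lt_card (s : Idx) : 1 < Nat.card (F s) := Finite.one_lt_card

theorem qq_ne_zero : qq ≠ 0 := by
  have : (0 : Val) = germ (fun _ => 0) := by
    unfold germ
    simp
    rfl
  rw [this, qq, Ne, germ_eq]
  intro h
  obtain ⟨s, hs⟩ := h.exists
  have := one_lt_card s
  omega

theorem qq_pow_ne_one {n : ℕ} (hn : 0 < n) : qq ^ n ≠ 1 := by
  have h1 : (1 : Val) = germ (fun _ => 1) := by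
    unfold germ
    simp
    rfl
  have h2 : qq ^ n = germ (fun s => Nat.card (F s) ^ n) := by
    unfold qq germ
    rw [← Filter.Germ.coe_pow]
    congr 1
    funext s
    simp
  rw [h1, h2, Ne, germ_eq]
  intro h
  obtain ⟨s, hs⟩ := h.exists
  have := Nat.one_lt_pow hn.ne' (one_lt_card s)
  omega

end Pool.Agent.Lib.MP_5b74a0_ag.Geo
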