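import Mathlib
import Pool.Agent.Lib.MP_5b74a0_ag.Defs
import Pool.Agent.Lib.MP_5b74a0_ag.Geo

noncomputable section

namespace Pool.Agent.Lib.MP_5b74a0_ag

open CategoryTheory CategoryTheory.Limits AlgebraicGeometry Filter
open Pool.Agent.Lib.MP_5b74a0_ag.Ultra Pool.Agent.Lib.MP_5b74a0_ag.Comb
open Pool.Agent.Lib.MP_5b74a0_ag.Geo

instance (A : MuVar) : AlgebraicGeometry.IsReduced A.X.left := A.isVar.reduced
instance (A : MuVar) : LocallyOfFiniteType A.X.hom := A.isVar.finType
instance (A : MuVar) : QuasiCompact A.X.hom := A.isVar.quasiCompact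
instance (A : MuVar) : IsSeparated A.X.hom := A.isVar.separated

/-- The counting function of a variety. -/
def cntf (A : MuVar) : Idx → ℕ := (exists_isCnt A.X).choose

theorem isCnt_cntf (A : MuVar) : IsCnt A.X (cntf A) := (exists_isCnt A.X).choose_spec

/-- The realization on the free ring. -/
def psi0 : FreeCommRing MuVar →+* Val := FreeCommRing.lift fun A => germ (cntf A)

theorem psi0_of (A : MuVar) : psi0 (FreeCommRing.of A) = germ (cntf A) :=
  FreeCommRing.lift_of _ _

theorem psi0_of_isCnt {A : MuVar} {f : Idx → ℕ} (h : IsCnt A.X f) :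
    psi0 (FreeCommRing.of A) = germ f := by
  rw [psi0_of]
  exact (isCnt_cntf A).unique h

theorem psi0_iso {A B : MuVar} (e : A.X ≅ B.X) :
    psi0 (FreeCommRing.of A) = psi0 (FreeCommRing.of B) := by
  rw [psi0_of B]
  exact psi0_of_isCnt ((isCnt_cntf B).of_iso e.symm)

/-- Isomorphic rings have isomorphic spectra. -/
def isoOfRingEquiv {A B : Type} [CommRing A] [CommRing B] (a : ℂ →+* A) (b : ℂ →+* B)
    (e : A ≃+* B) (h : e.toRingHom.comp a = b) :
    (Over.mk (Spec.map (CommRingCat.ofHom b)) : Over SpecC) ≅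
      Over.mk (Spec.map (CommRingCat.ofHom a)) where
  hom := Over.homMk (Spec.map (CommRingCat.ofHom e.toRingHom)) (by
    simp only [Over.mk_hom]
    rw [← Spec.map_comp, ← CommRingCat.ofHom_comp, h])
  inv := Over.homMk (Spec.map (CommRingCat.ofHom e.symm.toRingHom)) (by
    simp only [Over.mk_hom]
    rw [← Spec.map_comp, ← CommRingCat.ofHom_comp, ← h, ← RingHom.comp_assoc]
    congr 2
    ext z
    simp)
  hom_inv_id := by
    apply Over.OverMorphism.ext
    change Spec.map _ ≫ Spec.map _ = 𝟙 _
    rw [← Spec.map_comp, ← CommRingCat.ofHom_comp]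
    have : e.toRingHom.comp e.symm.toRingHom = RingHom.id B := by ext z; simp
    rw [this]
    exact Spec.map_id _
  inv_hom_id := by
    apply Over.OverMorphism.ext
    change Spec.map _ ≫ Spec.map _ = 𝟙 _
    rw [← Spec.map_comp, ← CommRingCat.ofHom_comp]
    have : e.symm.toRingHom.comp e.toRingHom = RingHom.id A := by ext z; simp
    rw [this]
    exact Spec.map_id _

/-- The point. -/
abbrev Pt : Over SpecC := Over.mk (Spec.map (CommRingCat.ofHom (RingHom.id ℂ)))

theorem isCnt_pt : IsCnt Pt (fun _ => 1) := by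
  have h := isCnt_aff 0
  have e : Pt ≅ Aff 0 := isoOfRingEquiv _ _
    (MvPolynomial.isEmptyAlgEquiv ℂ (Fin 0)).toRingEquiv (by
      ext z
      exact (MvPolynomial.isEmptyAlgEquiv ℂ (Fin 0)).commutes z)
  have h2 := h.of_iso e.symm
  simpa using h2

/-- The affine line. -/
abbrev Line : Over SpecC :=
  Over.mk (Spec.map (CommRingCat.ofHom (Polynomial.C : ℂ →+* Polynomial ℂ)))

theorem isCnt_line : IsCnt Line (fun s => Nat.card (F s)) := by
  have h := isCnt_aff 1
  have e : Line ≅ Aff 1 := isoOfRingEquiv _ _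
    (MvPolynomial.uniqueAlgEquiv ℂ (Fin 1)).toRingEquiv (by
      ext z : 1
      exact (MvPolynomial.uniqueAlgEquiv ℂ (Fin 1)).commutes z)
  have h2 := h.of_iso e.symm
  have h3 : (fun s => Nat.card (Fin 1 → F s)) = (fun s => Nat.card (F s)) := by
    funext s
    exact Nat.card_congr (Equiv.funUnique (Fin 1) (F s))
  rwa [h3] at h2

/-- The origin of the affine line. -/
def origin : Pt ⟶ Line :=
  Over.homMk (Spec.map (CommRingCat.ofHom (Polynomial.evalRingHom (0 : ℂ)))) (by
    simp only [Over.mk_hom]
    rw [← Spec.map_comp, ← CommRingCat.ofHom_comp]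
    congr 2
    ext z
    simp)

/-- The complement of the origin of the affine line. -/
def punctured : Gm ⟶ Line :=
  Over.homMk (Spec.map (CommRingCat.ofHom
    (Polynomial.toLaurent : Polynomial ℂ →+* LaurentPolynomial ℂ))) (by
    change Spec.map (CommRingCat.ofHom Polynomial.toLaurent) ≫
      Spec.map (CommRingCat.ofHom (Polynomial.C : ℂ →+* Polynomial ℂ)) =
      Spec.map (CommRingCat.ofHom (LaurentPolynomial.C : ℂ →+* LaurentPolynomial ℂ))
    rw [← Spec.map_comp, ← CommRingCat.ofHom_comp]
    congr 2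
    ext z
    simp)

instance : IsClosedImmersion origin.left :=
  IsClosedImmersion.spec_of_surjective _ (by
    intro z
    exact ⟨Polynomial.C z, by simp⟩)

theorem algebraMap_laurent : algebraMap (Polynomial ℂ) (LaurentPolynomial ℂ) =
    (Polynomial.toLaurent : Polynomial ℂ →+* LaurentPolynomial ℂ) := by
  refine RingHom.ext fun p => ?_
  exact LaurentPolynomial.algebraMap_eq_toLaurent p

instance : IsOpenImmersion punctured.left := by
  have := IsOpenImmersion.of_isLocalization (S := LaurentPolynomial ℂ)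
    (Polynomial.X : Polynomial ℂ)
  rw [algebraMap_laurent] at this
  exact this

theorem range_origin : Set.range origin.left = (Set.range punctured.left)ᶜ := by
  have h1 : Set.range origin.left =
      Set.range (PrimeSpectrum.comap (Polynomial.evalRingHom (0 : ℂ))) := rfl
  have h2 : Set.range punctured.left =
      Set.range (PrimeSpectrum.comap
        (Polynomial.toLaurent : Polynomial ℂ →+* LaurentPolynomial ℂ)) := rfl
  rw [h1, h2, ← algebraMap_laurent, PrimeSpectrum.localization_away_comap_range _ (Polynomial.X : Polynomial ℂ),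
    range_comap_of_surjective _ _ (by
      intro z
      exact ⟨Polynomial.C z, by simp⟩)]
  have hker : RingHom.ker (Polynomial.evalRingHom (0 : ℂ)) = Ideal.span {Polynomial.X} := by
    rw [Polynomial.ker_evalRingHom]
    simp
  rw [hker, PrimeSpectrum.zeroLocus_span, PrimeSpectrum.basicOpen_eq_zeroLocus_compl]
  exact (compl_compl _).symm

theorem exists_isCnt_gm : ∃ f, IsCnt Gm f := by
  have : LocallyOfFiniteType Gm.hom := isVar_Gm.finType
  have : QuasiCompact Gm.hom := isVar_Gm.quasiCompact
  have : IsSeparated Gm.hom := isVar_Gm.separated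
  exact exists_isCnt Gm

theorem germ_gm {f : Idx → ℕ} (h : IsCnt Gm f) : germ f = qq - 1 := by
  have : LocallyOfFiniteType Line.hom := isVar_A1.finType
  have : IsSeparated Line.hom := isVar_A1.separated
  have h2 := IsCnt.add (X := Line) origin punctured range_origin isCnt_line isCnt_pt h
  have h1 : germ (fun _ => 1) = (1 : Val) := by
    unfold germ
    simp
    rfl
  rw [h1] at h2
  change qq = 1 + germ f at h2
  rw [h2]
  ring

theorem germ_one : germ (fun _ => 1) = (1 : Val) := by
  unfold germ
  simp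
  rfl

theorem specMap_id :
    Spec.map (CommRingCat.ofHom (RingHom.id ℂ)) = 𝟙 (Spec (CommRingCat.of ℂ)) := by
  rw [CommRingCat.ofHom_id, Spec.map_id]

theorem toPt_aux (X : Over SpecC) :
    X.hom ≫ Spec.map (CommRingCat.ofHom (RingHom.id ℂ)) = X.hom := by
  rw [specMap_id, Category.comp_id]

/-- The structure morphism. -/
def toPt (X : Over SpecC) : X ⟶ Pt := Over.homMk X.hom (toPt_aux X)

theorem toPt_uniq (X : Over SpecC) (m : X ⟶ Pt) : m = toPt X := by
  apply Over.OverMorphism.ext
  have h : m.left ≫ Spec.map (CommRingCat.ofHom (RingHom.id ℂ)) = X.hom := Over.w m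
  rw [specMap_id] at h
  exact (Category.comp_id m.left).symm.trans h

/-- The point is terminal. -/
def ptTerminal : IsTerminal Pt := IsTerminal.ofUniqueHom toPt toPt_uniq

theorem psi0_terminal (A : MuVar) (h : IsTerminal A.X) : psi0 (FreeCommRing.of A) = 1 := by
  rw [psi0_of_isCnt (isCnt_pt.of_iso (h.uniqueUpToIso ptTerminal).symm), germ_one]

/-- The underlying varieties of affine bundles with given coordinates are isomorphic. -/
def affIso {E E' A : Over SpecC} (r : ℕ) (p : E ⟶ A) (p' : E' ⟶ A)
    (v : Fin r → Γ(E.left, ⊤)) (v' : Fin r → Γ(E'.left, ⊤))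
    [IsIso (AffineSpace.homOfVector p.left v)] [IsIso (AffineSpace.homOfVector p'.left v')] :
    E ≅ E' :=
  Over.isoMk
      (asIso (AffineSpace.homOfVector p.left v) ≪≫
        (asIso (AffineSpace.homOfVector p'.left v')).symm) (by
        simp only [Iso.trans_hom, asIso_hom, Iso.symm_hom, asIso_inv, Category.assoc]
        rw [← Over.w p', ← Over.w p]
        have h1 : inv (AffineSpace.homOfVector p'.left v') ≫ p'.left =
            𝔸(Fin r; A.left) ↘ A.left := by
          rw [IsIso.inv_comp_eq, AffineSpace.homOfVector_over]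
        rw [← Category.assoc (inv _), h1, ← Category.assoc, AffineSpace.homOfVector_over])

theorem psi0_cut (A Z V : MuVar) (i : Z.X ⟶ A.X) (j : V.X ⟶ A.X)
    (hci : IsClosedImmersion i.left) (hoj : IsOpenImmersion j.left)
    (h : Set.range i.left = (Set.range j.left)ᶜ) :
    psi0 (FreeCommRing.of A) = psi0 (FreeCommRing.of Z + FreeCommRing.of V) := by
  rw [map_add, psi0_of, psi0_of, psi0_of]
  exact IsCnt.add i j h (isCnt_cntf A) (isCnt_cntf Z) (isCnt_cntf V)

theorem psi0_mul (P A B : MuVar) (p : P.X ⟶ A.X) (q : P.X ⟶ B.X)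
    (h : IsLimit (BinaryFan.mk p q)) :
    psi0 (FreeCommRing.of P) = psi0 (FreeCommRing.of A * FreeCommRing.of B) := by
  rw [map_mul, psi0_of, psi0_of, psi0_of]
  exact IsCnt.mul p q h (isCnt_cntf P) (isCnt_cntf A) (isCnt_cntf B)

/-- The realization kills the relations. -/
theorem psi0_rel {a b : FreeCommRing MuVar} (h : KRel a b) : psi0 a = psi0 b := by
  cases h with
  | iso A B e he => exact psi0_iso e
  | cut A Z V i j hi hj hci hoj h => exact psi0_cut A Z V i j hci hoj h
  | one A h => rw [psi0_terminal A h, map_one]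
  | mul P A B p q hp hq h => exact psi0_mul P A B p q h
  | aff E E' A r p p' h h' =>
    obtain ⟨-, v, hv, -⟩ := h
    obtain ⟨-, v', hv', -⟩ := h'
    have h1 : IsIso (AffineSpace.homOfVector p.left v) := hv
    have h2 : IsIso (AffineSpace.homOfVector p'.left v') := hv'
    exact psi0_iso (affIso r p p' v v')

theorem relIdeal_le : relIdeal ≤ RingHom.ker psi0 := by
  unfold relIdeal
  rw [Ideal.span_le]
  rintro _ ⟨a, b, hab, rfl⟩
  rw [SetLike.mem_coe, RingHom.mem_ker, map_sub, psi0_rel hab, sub_self]

/-- The realization of the Grothendieck ring. -/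
def psiK : K0 →+* Val :=
  (Ideal.Quotient.lift relIdeal psi0 (fun _ hx => relIdeal_le hx) :
    FreeCommRing MuVar ⧸ relIdeal →+* Val)

theorem psiK_toK0 (x : FreeCommRing MuVar) : psiK (toK0 x) = psi0 x :=
  Ideal.Quotient.lift_mk relIdeal psi0 (fun _ hx => relIdeal_le hx)

theorem psiK_cl {A : MuVar} {f : Idx → ℕ} (h : IsCnt A.X f) : psiK (cl A) = germ f := by
  rw [cl, psiK_toK0]
  exact psi0_of_isCnt h

theorem psiK_affineLine : psiK (cl affineLine) = qq := psiK_cl (A := affineLine) isCnt_line

theorem psiK_torus (k : ℕ+) : psiK (cl (torus k)) = qq - 1 := by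
  obtain ⟨f, hf⟩ := exists_isCnt_gm
  rw [psiK_cl (A := torus k) hf, germ_gm hf]

theorem isUnit_psiK : IsUnit (psiK (cl affineLine)) := by
  rw [psiK_affineLine]
  exact isUnit_iff_ne_zero.mpr qq_ne_zero

/-- The realization of the localization. -/
def psiL : Localization.Away (cl affineLine) →+* Val :=
  IsLocalization.Away.lift (cl affineLine) isUnit_psiK

theorem psiL_algebraMap (x : K0) :
    psiL (algebraMap K0 (Localization.Away (cl affineLine)) x) = psiK x :=
  IsLocalization.Away.lift_eq (cl affineLine) isUnit_psiK x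

/-- The realization of `M`. -/
def psi : Mot →+* Val := psiL

theorem psi_toMot (x : K0) : psi (toMot x) = psiK x := psiL_algebraMap x

theorem psi_mot (A : MuVar) : psi (mot A) = psiK (cl A) := psi_toMot _

theorem psi_Lef : psi Lef = qq := by
  rw [Lef, psi_mot, psiK_affineLine]

theorem psi_torus (k : ℕ+) : psi (mot (torus k)) = qq - 1 := by
  rw [psi_mot, psiK_torus]

theorem isUnit_Lef : IsUnit Lef := by
  have h : IsUnit (algebraMap K0 (Localization.Away (cl affineLine)) (cl affineLine)) :=
    IsLocalization.Away.algebraMap_isUnit (cl affineLine)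
  exact h

theorem Lef_mul_LefInv : Lef * LefInv = 1 := Ring.mul_inverse_cancel _ isUnit_Lef

theorem psi_LefInv : psi LefInv = qq⁻¹ := by
  have h := congrArg psi Lef_mul_LefInv
  rw [map_mul, psi_Lef, map_one] at h
  exact (inv_eq_of_mul_eq_one_right h).symm

end Pool.Agent.Lib.MP_5b74a0_ag
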