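import Mathlib
import Pool.Agent.Lib.MP_5b74a0_ag.Defs
import Pool.Agent.Lib.MP_5b74a0_ag.Real

noncomputable section

namespace Pool.Agent.Lib.MP_5b74a0_ag

open Pool.Agent.Lib.MP_5b74a0_ag.Geo

/-- The realization on power series. -/
def psiS : PowerSeries Mot →+* PowerSeries Val := PowerSeries.map psi

theorem psiS_C (a : Mot) : psiS (PowerSeries.C a) = PowerSeries.C (psi a) := PowerSeries.map_C _ _

theorem psiS_X : psiS PowerSeries.X = PowerSeries.X := PowerSeries.map_X _

theorem geom_mul (a : ℕ) {b : ℕ} (hb : 0 < b) :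
    geom a b * (1 - PowerSeries.C (LefInv ^ a) * PowerSeries.X ^ b) = 1 := by
  unfold geom
  apply Ring.inverse_mul_cancel
  rw [PowerSeries.isUnit_iff_constantCoeff]
  simp [hb.ne']

/-- The denominator. -/
def den (a b : ℕ) : Polynomial Val := 1 - Polynomial.C (qq⁻¹ ^ a) * Polynomial.X ^ b

theorem psiS_geom (a : ℕ) {b : ℕ} (hb : 0 < b) :
    psiS (geom a b) * (den a b : PowerSeries Val) = 1 := by
  have h := congrArg psiS (geom_mul a hb)
  simp only [map_mul, map_sub, map_pow, map_one, psiS_C, psiS_X, psi_LefInv] at h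
  rw [← h]
  congr 1
  simp [den, ← inv_pow]

/-- The algebraic closure of the value field. -/
abbrev L : Type := AlgebraicClosure Val

/-- Regularity at `τ`. -/
def RegularAt (τ : L) (f : PowerSeries Val) : Prop :=
  ∃ P Q : Polynomial Val, f * (Q : PowerSeries Val) = (P : PowerSeries Val) ∧
    Polynomial.aeval τ Q ≠ 0

theorem regularAt_of_mem {τ : L} {S : Finset (ℕ × ℕ)} (hpos : ∀ p ∈ S, 0 < p.2)
    (hS : ∀ p ∈ S, τ ^ p.2 ≠ algebraMap Val L (qq ^ p.1)) {Z : PowerSeries Mot}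
    (hZ : Z ∈ Subring.closure (Set.range (PowerSeries.C (R := Mot)) ∪ {PowerSeries.X} ∪
      {f | ∃ p ∈ S, f = geom p.1 p.2})) :
    RegularAt τ (psiS Z) := by
  induction hZ using Subring.closure_induction with
  | mem x hx =>
    rcases hx with (⟨r, rfl⟩ | rfl) | ⟨p, hp, rfl⟩
    · exact ⟨Polynomial.C (psi r), 1, by rw [psiS_C]; simp, by simp⟩
    · exact ⟨Polynomial.X, 1, by simp [psiS_X], by simp⟩
    · refine ⟨1, den p.1 p.2, by rw [psiS_geom _ (hpos p hp)]; simp, ?_⟩
      have hq : algebraMap Val L qq ≠ 0 := by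
        rw [Ne, map_eq_zero]
        exact qq_ne_zero
      simp only [den, map_sub, map_one, map_mul, Polynomial.aeval_C, map_pow, Polynomial.aeval_X,
        map_inv₀]
      intro h
      apply hS p hp
      rw [sub_eq_zero, inv_pow, eq_comm, inv_mul_eq_one₀ (pow_ne_zero _ hq)] at h
      rw [map_pow]
      exact h.symm
  | zero => exact ⟨0, 1, by simp, by simp⟩
  | one => exact ⟨1, 1, by simp, by simp⟩
  | neg x _ hx =>
    obtain ⟨P, Q, h1, h2⟩ := hx
    exact ⟨-P, Q, by rw [map_neg, Polynomial.coe_neg, ← h1]; ring, h2⟩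
  | add x y _ _ hx hy =>
    obtain ⟨P, Q, h1, h2⟩ := hx
    obtain ⟨P', Q', h1', h2'⟩ := hy
    refine ⟨P * Q' + P' * Q, Q * Q', ?_, by rw [map_mul]; exact mul_ne_zero h2 h2'⟩
    rw [map_add, Polynomial.coe_mul, Polynomial.coe_add, Polynomial.coe_mul, Polynomial.coe_mul,
      ← h1, ← h1']
    ring
  | mul x y _ _ hx hy =>
    obtain ⟨P, Q, h1, h2⟩ := hx
    obtain ⟨P', Q', h1', h2'⟩ := hy
    refine ⟨P * P', Q * Q', ?_, by rw [map_mul]; exact mul_ne_zero h2 h2'⟩
    rw [map_mul, Polynomial.coe_mul, Polynomial.coe_mul, ← h1, ← h1']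
    ring

theorem not_regularAt {τ : L} {f : PowerSeries Val} (P₀ Q₀ : Polynomial Val)
    (h : f * (Q₀ : PowerSeries Val) = (P₀ : PowerSeries Val)) (hQ : Polynomial.aeval τ Q₀ = 0)
    (hP : Polynomial.aeval τ P₀ ≠ 0) : ¬ RegularAt τ f := by
  rintro ⟨P, Q, h1, h2⟩
  have h3 : ((P * Q₀ : Polynomial Val) : PowerSeries Val) = ((P₀ * Q : Polynomial Val) :) := by
    rw [Polynomial.coe_mul, Polynomial.coe_mul, ← h1, ← h]
    ring
  have h4 : P * Q₀ = P₀ * Q := Polynomial.coe_injective _ h3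
  have h5 := congrArg (Polynomial.aeval τ) h4
  rw [map_mul, map_mul, hQ, mul_zero] at h5
  exact mul_ne_zero hP h2 h5.symm

theorem exists_root {m : ℕ} (hm : 0 < m) (c : Val) : ∃ τ : L, τ ^ m = algebraMap Val L c :=
  IsAlgClosed.exists_pow_nat_eq _ hm

theorem pow_eq_of_pow_eq {a b : ℕ} (h : algebraMap Val L qq ^ a = algebraMap Val L qq ^ b) :
    a = b := by
  rw [← map_pow, ← map_pow] at h
  have h' := (algebraMap Val L).injective h
  wlog hab : a < b generalizing a b
  · rcases lt_trichotomy a b with h1 | h1 | h1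
    · exact absurd h1 hab
    · exact h1
    · exact (this h.symm h'.symm h1).symm
  · exfalso
    have h2 : qq ^ b = qq ^ a * qq ^ (b - a) := by rw [← pow_add]; congr 1; omega
    rw [h2] at h'
    have h3 : qq ^ (b - a) = 1 := by
      have h4 : qq ^ a ≠ 0 := pow_ne_zero _ qq_ne_zero
      exact (mul_left_cancel₀ h4 (by rw [mul_one]; exact h')).symm
    exact qq_pow_ne_one (by omega) h3

end Pool.Agent.Lib.MP_5b74a0_ag
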