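import Mathlib
import Pool.Agent.Lib.MP_5b74a0_ag.Defs

noncomputable section

namespace Pool.Agent.Lib.MP_5b74a0_ag

open CategoryTheory CategoryTheory.Limits Opposite Complex Topology

variable {X : Type} [TopologicalSpace X] (f : C(X, ℂ))

/-- The cover as a subtype. -/
abbrev CC {X : Type} [TopologicalSpace X] (f : C(X, ℂ)) : Type :=
  {q : ℂ × X // exp (2 * Real.pi * I * q.1) = f q.2}

/-- The covering map. -/
def projC : C(CC f, X) := ⟨fun q => q.1.2, by fun_prop⟩

/-- The deck transformation `(s, p) ↦ (s + 1, p)`. -/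
def deckC : CC f ≃ₜ CC f :=
  ((Homeomorph.addRight (1 : ℂ)).prodCongr (Homeomorph.refl X)).subtype (deck_iff f)

/-- The action of the deck transformation on cohomology. -/
def deckCohC (i : ℕ) : Module.End ℂ (Hcoh i (CC f)) := HcohMap i ⟨deckC f, (deckC f).continuous⟩

theorem exp_add_int (s : ℂ) (n : ℤ) :
    exp (2 * Real.pi * I * (s + n)) = exp (2 * Real.pi * I * s) := by
  rw [mul_add, exp_add]
  have : 2 * Real.pi * I * (n : ℂ) = n * (2 * Real.pi * I) := by ring
  rw [this, exp_int_mul_two_pi_mul_I, mul_one]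

theorem exp_eq_iff (s s' : ℂ) :
    exp (2 * Real.pi * I * s) = exp (2 * Real.pi * I * s') ↔ ∃ n : ℤ, s = s' + n := by
  rw [exp_eq_exp_iff_exists_int]
  constructor
  · rintro ⟨n, hn⟩
    refine ⟨n, ?_⟩
    have h2 : (2 * Real.pi * I : ℂ) ≠ 0 := two_pi_I_ne_zero
    have h3 : (2 * Real.pi * I : ℂ) * s = (2 * Real.pi * I) * (s' + n) := by
      rw [hn]; ring
    exact mul_left_cancel₀ h2 h3
  · rintro ⟨n, rfl⟩
    exact ⟨n, by ring⟩

instance : AddAction ℤ (CC f) where
  vadd n q := ⟨(q.1.1 + n, q.1.2), by rw [exp_add_int]; exact q.2⟩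
  zero_vadd q := by
    apply Subtype.ext
    apply Prod.ext
    · change q.1.1 + ((0 : ℤ) : ℂ) = q.1.1
      simp
    · rfl
  add_vadd a b q := by
    apply Subtype.ext
    apply Prod.ext
    · change q.1.1 + ((a + b : ℤ) : ℂ) = (q.1.1 + (b : ℂ)) + (a : ℂ)
      push_cast
      ring
    · rfl

theorem vadd_val (n : ℤ) (q : CC f) : (n +ᵥ q).1 = (q.1.1 + n, q.1.2) := rfl

theorem isAddQuotientCoveringMap (hf : ∀ x, f x ≠ 0) :
    IsAddQuotientCoveringMap (projC f) ℤ := by
  -- sections
  have hsec : ∀ e : CC f, ∃ σ : X → CC f, (∀ x, projC f (σ x) = x) ∧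
      ContinuousAt σ (projC f e) ∧ σ (projC f e) = e := by
    intro e
    have h2 : (2 * Real.pi * I : ℂ) ≠ 0 := two_pi_I_ne_zero
    refine ⟨fun x => ⟨(e.1.1 + log (f x / f e.1.2) / (2 * Real.pi * I), x), ?_⟩, fun x => rfl, ?_,
      ?_⟩
    · rw [mul_add, exp_add, mul_div_cancel₀ _ h2, exp_log (div_ne_zero (hf _) (hf _)), e.2]
      simp only
      rw [mul_div_cancel₀ _ (hf _)]
    · rw [Topology.IsInducing.subtypeVal.continuousAt_iff]
      refine ContinuousAt.prodMk ?_ continuousAt_id
      refine ContinuousAt.add continuousAt_const ?_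
      refine ContinuousAt.div_const ?_ _
      refine ContinuousAt.clog ?_ ?_
      · exact (f.continuous.continuousAt).div_const _
      · have : f (projC f e) / f e.1.2 = 1 := div_self (hf _)
        rw [this]
        exact one_mem_slitPlane
    · apply Subtype.ext
      apply Prod.ext
      · change e.1.1 + log (f e.1.2 / f e.1.2) / (2 * Real.pi * I) = e.1.1
        rw [div_self (hf _), log_one]
        simp
      · rfl
  have hopen : IsOpenMap (projC f) := by
    rw [isOpenMap_iff_nhds_le]
    intro e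
    obtain ⟨σ, h1, h2, h3⟩ := hsec e
    rw [ContinuousAt, h3] at h2
    calc 𝓝 (projC f e) = Filter.map (projC f ∘ σ) (𝓝 (projC f e)) := by
          have : (projC f ∘ σ) = id := funext h1
          rw [this, Filter.map_id]
      _ = Filter.map (projC f) (Filter.map σ (𝓝 (projC f e))) := rfl
      _ ≤ Filter.map (projC f) (𝓝 e) := Filter.map_mono h2
  have hsurj : Function.Surjective (projC f) := by
    intro x
    have h2 : (2 * Real.pi * I : ℂ) ≠ 0 := two_pi_I_ne_zero
    exact ⟨⟨(log (f x) / (2 * Real.pi * I), x), by rw [mul_div_cancel₀ _ h2, exp_log (hf _)]⟩, rfl⟩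
  have hq : IsQuotientMap (projC f) := hopen.isQuotientMap (projC f).continuous hsurj
  refine { toIsQuotientMap := hq, continuous_const_vadd := ?_, apply_eq_iff_mem_orbit := ?_, disjoint := ?_ }
  · intro n
    refine Continuous.subtype_mk ?_ _
    fun_prop
  · intro e₁ e₂
    constructor
    · intro h
      have h' : e₁.1.2 = e₂.1.2 := h
      have h3 := e₁.2
      rw [h', ← e₂.2, exp_eq_iff] at h3
      obtain ⟨n, hn⟩ := h3
      exact ⟨n, Subtype.ext (Prod.ext hn.symm h'.symm)⟩
    · rintro ⟨n, rfl⟩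
      rfl
  · intro e
    refine ⟨{q | dist q.1.1 e.1.1 < 1 / 2}, ?_, ?_⟩
    · refine IsOpen.mem_nhds ?_ (by simp)
      exact isOpen_lt (by fun_prop) continuous_const
    · rintro n ⟨q, ⟨q', hq', rfl⟩, hq⟩
      simp only [Set.mem_ofPred_eq] at hq hq'
      by_contra hn
      have h1 : (1 : ℝ) ≤ ‖(n : ℂ)‖ := by
        rw [norm_intCast]
        exact_mod_cast Int.one_le_abs hn
      have h2 : ‖(n : ℂ)‖ ≤ dist (n +ᵥ q').1.1 e.1.1 + dist q'.1.1 e.1.1 := by
        have : (n : ℂ) = ((n +ᵥ q').1.1 - e.1.1) - (q'.1.1 - e.1.1) := by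
          rw [vadd_val]; ring
        rw [this, dist_eq_norm, dist_eq_norm]
        exact norm_sub_le _ _
      linarith


theorem HcohMap_homotopy (i : ℕ) {X Y : Type} [TopologicalSpace X] [TopologicalSpace Y]
    {f g : C(X, Y)} (H : ContinuousMap.Homotopy f g) : HcohMap i f = HcohMap i g := by
  have H' : TopCat.Homotopy (TopCat.ofHom f) (TopCat.ofHom g) := H
  have := H'.congr_homologyMap_singularChainComplexFunctor (op (ModuleCat.of ℂ ℂ)) i
  unfold HcohMap
  congr 2

theorem HcohMap_id (i : ℕ) {X : Type} [TopologicalSpace X] :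
    HcohMap i (ContinuousMap.id X) = LinearMap.id := by
  unfold HcohMap
  have h : TopCat.ofHom (ContinuousMap.id X) = 𝟙 (TopCat.of X) := rfl
  rw [h, CategoryTheory.Functor.map_id]
  rfl

theorem deckCohC_eq_id (φ : C(unitInterval × X, X)) (h0 : ∀ x, φ (0, x) = x)
    (h1 : ∀ x, φ (1, x) = x)
    (hφ : ∀ θ x, f (φ (θ, x)) = exp (2 * Real.pi * I * (θ : ℝ)) * f x) (i : ℕ) :
    deckCohC f i = LinearMap.id := by
  let H : ContinuousMap.Homotopy (ContinuousMap.id (CC f))
      (deckC f : C(CC f, CC f)) :=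
    { toFun := fun q => ⟨(q.2.1.1 + (q.1 : ℝ), φ (q.1, q.2.1.2)), by
        rw [hφ, mul_add, exp_add, q.2.2, mul_comm]⟩
      continuous_toFun := by fun_prop
      map_zero_left := fun q => by
        apply Subtype.ext
        apply Prod.ext
        · simp
        · exact h0 _
      map_one_left := fun q => by
        apply Subtype.ext
        apply Prod.ext
        · change q.1.1 + (((1 : unitInterval) : ℝ) : ℂ) = q.1.1 + 1
          simp
        · exact h1 _ }
  unfold deckCohC
  exact (HcohMap_homotopy i H).symm.trans (HcohMap_id i)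

theorem not_hasEigenvalue (i : ℕ) (h : deckCoh f i = LinearMap.id) {c : ℂ} (hc : c ≠ 1) :
    ¬ Module.End.HasEigenvalue (deckCoh f i) c := by
  intro he
  obtain ⟨v, hv⟩ := he.exists_hasEigenvector
  have h1 := hv.apply_eq_smul
  rw [h] at h1
  simp only [LinearMap.id_coe, id_eq] at h1
  have h2 : (1 - c) • v = 0 := by rw [sub_smul, one_smul, ← h1, sub_self]
  rcases smul_eq_zero.mp h2 with h3 | h3
  · exact hc (sub_eq_zero.mp h3).symm
  · exact hv.2 h3

/-- The holonomy attached to `f`. -/
def holonomy (hf : ∀ x, f x ≠ 0) (x : X) (e : projC f ⁻¹' {x}) :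
    FundamentalGroup X x →* Multiplicative ℤ :=
  (MulOpposite.opMulEquiv (M := Multiplicative ℤ)).symm.toMonoidHom.comp
    ((isAddQuotientCoveringMap f hf).fundamentalGroupToMulOpposite e)

theorem holonomy_eq (hf : ∀ x, f x ≠ 0) (x : X) (e : projC f ⁻¹' {x}) (γ : Path x x)
    (s : C(unitInterval, ℂ)) (hs : ∀ θ, exp (2 * Real.pi * I * s θ) = f (γ θ))
    (h0 : s 0 = e.1.1.1) (n : ℤ) (h1 : s 1 = s 0 + n) :
    holonomy f hf x e (FundamentalGroup.fromPath (Path.Homotopic.Quotient.mk γ)) =
      Multiplicative.ofAdd n := by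
  have hp := isAddQuotientCoveringMap f hf
  have key : hp.fundamentalGroupToMulOpposite e
      (FundamentalGroup.fromPath (Path.Homotopic.Quotient.mk γ)) =
      MulOpposite.op (Multiplicative.ofAdd n) := by
    rw [hp.fundamentalGroupToMulOpposite_apply_eq_Iff]
    have hex : e.1.1.2 = x := e.2
    -- the end point
    let e1 : projC f ⁻¹' {x} := ⟨n +ᵥ e.1, hex⟩
    let Γ : Path e.1 e1.1 :=
      { toFun := fun θ => ⟨(s θ, γ θ), hs θ⟩
        continuous_toFun := by fun_prop
        source' := by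
          apply Subtype.ext
          apply Prod.ext
          · exact h0
          · change γ 0 = e.1.1.2
            rw [hex]; exact γ.source
        target' := by
          apply Subtype.ext
          apply Prod.ext
          · change s 1 = e.1.1.1 + n
            rw [h1, h0]
          · change γ 1 = e.1.1.2
            rw [hex]; exact γ.target }
    have := hp.isCoveringMap.monodromy_eq_of_map_eq (γ := Path.Homotopic.Quotient.mk γ)
      (ex := e) (ey := e1) (Path.Homotopic.Quotient.mk Γ) rfl
    exact (congrArg Subtype.val this).symm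
  unfold holonomy
  rw [MonoidHom.comp_apply, key]
  rfl

theorem deck_zpow (n : ℤ) (q : CC f) :
    ((deckC f) ^ n : CC f ≃ₜ CC f) q = n +ᵥ q := by
  induction n using Int.induction_on generalizing q with
  | zero => rw [zpow_zero, zero_vadd]; rfl
  | succ n ih =>
    rw [zpow_add_one]
    change ((deckC f) ^ (n : ℤ)) (deckC f q) = _
    rw [ih]
    apply Subtype.ext
    apply Prod.ext
    · change q.1.1 + 1 + ((n : ℤ) : ℂ) = q.1.1 + ((n + 1 : ℤ) : ℂ)
      push_cast; ring
    · rfl
  | pred n ih =>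
    rw [zpow_sub_one]
    change ((deckC f) ^ (-(n : ℤ))) ((deckC f).symm q) = _
    rw [ih]
    apply Subtype.ext
    apply Prod.ext
    · change q.1.1 - 1 + ((-(n : ℤ) : ℤ) : ℂ) = q.1.1 + ((-(n : ℤ) - 1 : ℤ) : ℂ)
      push_cast; ring
    · rfl

theorem isInfiniteCyclicCover (hf : ∀ x, f x ≠ 0) (x : X) (e : projC f ⁻¹' {x})
    [PathConnectedSpace (CC f)] :
    IsInfiniteCyclicCover x (holonomy f hf x e) (projC f) (deckC f) := by
  have hp := isAddQuotientCoveringMap f hf
  refine ⟨?_, hp.isCoveringMap, inferInstance, ?_, fun _ => rfl, ?_⟩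
  · exact (MulOpposite.opMulEquiv (M := Multiplicative ℤ)).symm.surjective.comp
      (hp.fundamentalGroupToMulOpposite_surjective e)
  · intro e' he'
    have h1 := hp.ker_fundamentalGroupToMulOpposite e
    have h2 := hp.ker_monodromyPerm ⟨e', he'⟩
    have h3 : (holonomy f hf x e).ker = (hp.fundamentalGroupToMulOpposite e).ker := by
      unfold holonomy
      ext g
      simp [MonoidHom.mem_ker]
    rw [h3, h1, h2]
    rfl
  · intro s hs
    obtain ⟨e0⟩ : Nonempty (CC f) := inferInstance
    have h1 : s e0 ∈ AddAction.orbit ℤ e0 := hp.apply_eq_iff_mem_orbit.mp (hs e0)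
    obtain ⟨n, hn⟩ := h1
    refine ⟨n, ?_⟩
    have hpow := deck_zpow f
    have : (s : CC f → CC f) =
        ((deckC f) ^ n : CC f ≃ₜ CC f) := by
      refine hp.isCoveringMap.eq_of_comp_eq s.continuous ((deckC f) ^ n).continuous ?_ e0 ?_
      · funext q
        simp only [Function.comp_apply, hs, hpow]
        rfl
      · rw [hpow]; exact hn.symm
    exact Homeomorph.ext (congrFun this)

theorem deckCoh_eq_of (i : ℕ) (h : deckCohC f i = LinearMap.id) : deckCoh f i = LinearMap.id := h

theorem isInfiniteCyclicCover_of {x : X} {Δ : FundamentalGroup X x →* Multiplicative ℤ}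
    (h : IsInfiniteCyclicCover x Δ (projC f) (deckC f)) :
    IsInfiniteCyclicCover x Δ (proj f) (deck f) := h

end Pool.Agent.Lib.MP_5b74a0_ag
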